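import Mathlib

/-!
Q2 (MP_464c42_nt). The `n + 2` smallest of `r` positive integers: the product without the largest and the square root of two others is at
most the product of all to the power `max (n / r) ((n - 1) / (r - 2))`. (helper10)

With logarithms: `m` the largest of the chosen, `a` the sum of the two, `b ≤ (n - 1) m` the sum of the other `n - 1`, and all not chosen are
at least `m`, so the sum of all is at least `a + b + (r - n - 1) m`; for `E (r - 2) ≥ n - 1`, `E r ≥ n`, `E ≤ 1`,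
`E (a + b + (r - n - 1) m) - a / 2 - b ≥ (E - 1 / 2) a + (E (r - 2) - (n - 1)) m ≥ 0` (`0 ≤ a ≤ 2 m`).
-/

set_option autoImplicit false

namespace Pool.Agent.Helper87.RP

/-- The exponent. -/
noncomputable def expQ (n r : ℕ) : ℝ := max ((n : ℝ) / r) (((n : ℝ) - 1) / (r - 2))

lemma expQ_facts {n s : ℕ} (hn : 1 ≤ n) : 0 ≤ expQ n (n + 2 + s) ∧ expQ n (n + 2 + s) ≤ 1 ∧
    (n : ℝ) ≤ expQ n (n + 2 + s) * ((n : ℝ) + 2 + s) ∧ (n : ℝ) - 1 ≤ expQ n (n + 2 + s) * ((n : ℝ) + s) := by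
  have hn' : (1 : ℝ) ≤ n := by exact_mod_cast hn
  have hs : (0 : ℝ) ≤ s := Nat.cast_nonneg s
  have h1 : (n : ℝ) / ((n + 2 + s : ℕ) : ℝ) ≤ expQ n (n + 2 + s) := le_max_left _ _
  have h2 : ((n : ℝ) - 1) / (((n + 2 + s : ℕ) : ℝ) - 2) ≤ expQ n (n + 2 + s) := le_max_right _ _
  have e1 : ((n + 2 + s : ℕ) : ℝ) = (n : ℝ) + 2 + s := by push_cast; ring
  have e2 : (n : ℝ) + 2 + s - 2 = (n : ℝ) + s := by ring
  rw [e1] at h1 h2
  rw [e2] at h2
  refine ⟨le_trans (by positivity) h1, ?_, ?_, ?_⟩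
  · refine max_le ?_ ?_
    · rw [e1, div_le_one (by positivity)]
      linarith
    · rw [e1, e2, div_le_one (by positivity)]
      linarith
  · rwa [div_le_iff₀ (by positivity)] at h1
  · rwa [div_le_iff₀ (by positivity)] at h2

/-- The inequality. -/
lemma sel_core {n s : ℕ} (hn : 1 ≤ n) (Y : Fin (n + 2) → ℝ) (hY : ∀ i, 1 ≤ Y i) (t j l : Fin (n + 2))
    (htj : t ≠ j) (htl : t ≠ l) (hjl : j ≠ l) (hmax : ∀ i, Y i ≤ Y t) {Z : ℝ}
    (hZ : (∏ i, Y i) * Y t ^ s ≤ Z) :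
    (∏ i, Y i) / (Y t * Real.sqrt (Y j * Y l)) ≤ Z ^ expQ n (n + 2 + s) := by
  classical
  obtain ⟨hE0, hE1, hE2, hE3⟩ := expQ_facts (s := s) hn
  set E := expQ n (n + 2 + s) with hE
  have hY0 : ∀ i, 0 < Y i := fun i => lt_of_lt_of_le one_pos (hY i)
  have hP0 : 0 < ∏ i, Y i := Finset.prod_pos fun i _ => hY0 i
  have hZ0 : 0 < Z := lt_of_lt_of_le (mul_pos hP0 (pow_pos (hY0 t) s)) hZ
  have hsum : Real.log (∏ i, Y i) = ∑ i, Real.log (Y i) := Real.log_prod fun i _ => (hY0 i).ne'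
  have hsplit : ∑ i, Real.log (Y i) = Real.log (Y t) + Real.log (Y j) + Real.log (Y l) +
      ∑ i ∈ ((Finset.univ.erase t).erase j).erase l, Real.log (Y i) := by
    rw [← Finset.add_sum_erase Finset.univ (fun i => Real.log (Y i)) (Finset.mem_univ t),
      ← Finset.add_sum_erase (Finset.univ.erase t) (fun i => Real.log (Y i))
        (Finset.mem_erase.2 ⟨htj.symm, Finset.mem_univ j⟩),
      ← Finset.add_sum_erase ((Finset.univ.erase t).erase j) (fun i => Real.log (Y i))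
        (Finset.mem_erase.2 ⟨hjl.symm, Finset.mem_erase.2 ⟨htl.symm, Finset.mem_univ l⟩⟩)]
    ring
  have hcard : (((Finset.univ.erase t).erase j).erase l).card = n - 1 := by
    rw [Finset.card_erase_of_mem
        (Finset.mem_erase.2 ⟨hjl.symm, Finset.mem_erase.2 ⟨htl.symm, Finset.mem_univ l⟩⟩),
      Finset.card_erase_of_mem (Finset.mem_erase.2 ⟨htj.symm, Finset.mem_univ j⟩),
      Finset.card_erase_of_mem (Finset.mem_univ t), Finset.card_univ, Fintype.card_fin]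
    omega
  obtain ⟨b, hb⟩ : ∃ b, b = ∑ i ∈ ((Finset.univ.erase t).erase j).erase l, Real.log (Y i) := ⟨_, rfl⟩
  obtain ⟨m, hm⟩ : ∃ m, m = Real.log (Y t) := ⟨_, rfl⟩
  obtain ⟨a, ha⟩ : ∃ a, a = Real.log (Y j) + Real.log (Y l) := ⟨_, rfl⟩
  have hlm : ∀ i, Real.log (Y i) ≤ m := fun i => by
    rw [hm]
    exact Real.log_le_log (hY0 i) (hmax i)
  have hm0 : 0 ≤ m := by rw [hm]; exact Real.log_nonneg (hY t)
  have ha0 : 0 ≤ a := by
    rw [ha]
    exact add_nonneg (Real.log_nonneg (hY j)) (Real.log_nonneg (hY l))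
  have ha2 : a ≤ 2 * m := by
    rw [ha]
    linarith [hlm j, hlm l]
  have hbm : b ≤ ((n : ℝ) - 1) * m := by
    have h1 := Finset.sum_le_card_nsmul (((Finset.univ.erase t).erase j).erase l)
      (fun i => Real.log (Y i)) m (fun i _ => hlm i)
    rw [hcard, nsmul_eq_mul, Nat.cast_sub hn, Nat.cast_one] at h1
    rw [hb]
    exact h1
  have hlogP : Real.log (∏ i, Y i) = m + a + b := by
    rw [hsum, hsplit, ← hb, hm, ha]
    ring
  have hlogZ : a + b + (1 + s) * m ≤ Real.log Z := by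
    have h1 := Real.log_le_log (mul_pos hP0 (pow_pos (hY0 t) s)) hZ
    rw [Real.log_mul hP0.ne' (pow_pos (hY0 t) s).ne', Real.log_pow, hlogP, ← hm] at h1
    linarith
  have hmain : a / 2 + b ≤ E * Real.log Z := by
    have h1 : E * (a + b + (1 + s) * m) ≤ E * Real.log Z := mul_le_mul_of_nonneg_left hlogZ hE0
    have h2 : (1 - E) * b ≤ (1 - E) * (((n : ℝ) - 1) * m) :=
      mul_le_mul_of_nonneg_left hbm (by linarith)
    have h3 : 0 ≤ (E * ((n : ℝ) + s) - ((n : ℝ) - 1)) * m := mul_nonneg (by linarith) hm0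
    rcases le_or_gt (1 / 2) E with h4 | h4
    · have h5 : 0 ≤ (E - 1 / 2) * a := mul_nonneg (by linarith) ha0
      nlinarith
    · have h5 : (1 / 2 - E) * a ≤ (1 / 2 - E) * (2 * m) := mul_le_mul_of_nonneg_left ha2 (by linarith)
      have h6 : 0 ≤ (E * ((n : ℝ) + 2 + s) - n) * m := mul_nonneg (by linarith) hm0
      nlinarith
  have hden : 0 < Y t * Real.sqrt (Y j * Y l) :=
    mul_pos (hY0 t) (Real.sqrt_pos.2 (mul_pos (hY0 j) (hY0 l)))
  rw [← Real.log_le_log_iff (div_pos hP0 hden) (Real.rpow_pos_of_pos hZ0 _), Real.log_rpow hZ0,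
    Real.log_div hP0.ne' hden.ne', Real.log_mul (hY0 t).ne' (Real.sqrt_pos.2 (mul_pos (hY0 j) (hY0 l))).ne',
    Real.log_sqrt (mul_pos (hY0 j) (hY0 l)).le, Real.log_mul (hY0 j).ne' (hY0 l).ne', hlogP, ← hm, ← ha]
  linarith

/-- The choice of the `n + 2` smallest. -/
lemma exists_small {n s : ℕ} (R : Fin (n + 2 + s) → ℕ) : ∃ (e : Fin (n + 2) → Fin (n + 2 + s))
    (f : Fin s → Fin (n + 2 + s)), Function.Injective e ∧ (∀ i k, R (e i) ≤ R (f k)) ∧
    ∀ g : Fin (n + 2 + s) → ℝ, ∏ i, g i = (∏ i, g (e i)) * ∏ k, g (f k) := by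
  refine ⟨fun i => Tuple.sort R (Fin.castAdd s i), fun k => Tuple.sort R (Fin.natAdd (n + 2) k), ?_, ?_, ?_⟩
  · intro i i' h
    exact Fin.castAdd_injective _ _ ((Tuple.sort R).injective h)
  · intro i k
    refine Tuple.monotone_sort R ?_
    rw [Fin.le_def]
    simp only [Fin.val_castAdd, Fin.val_natAdd]
    have := i.isLt
    omega
  · intro g
    rw [← Equiv.prod_comp (Tuple.sort R) g, Fin.prod_univ_add]

/-- Q2 in a robust form, for dyadic upper bounds `Y i ≤ 2 R (e i)`. -/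
theorem sel_qY {n r : ℕ} (hn : 1 ≤ n) (hr : n + 2 ≤ r) (R : Fin r → ℕ) (hR : ∀ i, 1 ≤ R i) :
    ∃ e : Fin (n + 2) → Fin r, Function.Injective e ∧ ∀ Y : Fin (n + 2) → ℕ,
      (∀ i, 1 ≤ Y i ∧ Y i ≤ 2 * R (e i)) → ∀ t j l : Fin (n + 2), t ≠ j → t ≠ l → j ≠ l →
      (∀ i, Y i ≤ Y t) →
      ((∏ i, Y i : ℕ) : ℝ) / (Y t * Real.sqrt (Y j * Y l)) ≤
        2 ^ r * ((∏ i, R i : ℕ) : ℝ) ^ (max ((n : ℝ) / r) (((n : ℝ) - 1) / (r - 2))) := by
  obtain ⟨s, rfl⟩ : ∃ s, r = n + 2 + s := ⟨r - (n + 2), by omega⟩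
  obtain ⟨e, f, he, hle, hg⟩ := exists_small R
  obtain ⟨hE0, hE1, -, -⟩ := expQ_facts (s := s) hn
  refine ⟨e, he, fun Y hY t j l htj htl hjl hmax => ?_⟩
  have hRr : ∀ i, (1 : ℝ) ≤ R i := fun i => by exact_mod_cast hR i
  have hPR : (0 : ℝ) ≤ ∏ i, (R i : ℝ) := Finset.prod_nonneg fun i _ => by linarith [hRr i]
  have hZ : (∏ i, (Y i : ℝ)) * (Y t : ℝ) ^ s ≤ ∏ i, (2 * (R i : ℝ)) := by
    rw [hg fun i => 2 * (R i : ℝ)]
    refine mul_le_mul ?_ ?_ (by positivity) (Finset.prod_nonneg fun i _ => by positivity)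
    · exact Finset.prod_le_prod (fun i _ => Nat.cast_nonneg _) fun i _ => by exact_mod_cast (hY i).2
    · have h1 : (Y t : ℝ) ^ s = ∏ _k : Fin s, (Y t : ℝ) := by
        rw [Finset.prod_const, Finset.card_univ, Fintype.card_fin]
      rw [h1]
      refine Finset.prod_le_prod (fun i _ => Nat.cast_nonneg _) fun k _ => ?_
      have h2 : Y t ≤ 2 * R (f k) := (hY t).2.trans (Nat.mul_le_mul_left 2 (hle t k))
      exact_mod_cast h2
  have h1 := sel_core hn (fun i => (Y i : ℝ)) (fun i => by exact_mod_cast (hY i).1) t j l htj htl hjl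
    (fun i => by exact_mod_cast hmax i) hZ
  rw [Finset.prod_mul_distrib, Finset.prod_const, Finset.card_univ, Fintype.card_fin,
    Real.mul_rpow (by positivity) hPR] at h1
  push_cast at h1 ⊢
  refine h1.trans ?_
  have h2 : ((2 : ℝ) ^ (n + 2 + s)) ^ expQ n (n + 2 + s) ≤ 2 ^ (n + 2 + s) := by
    calc ((2 : ℝ) ^ (n + 2 + s)) ^ expQ n (n + 2 + s) ≤ ((2 : ℝ) ^ (n + 2 + s)) ^ (1 : ℝ) :=
          Real.rpow_le_rpow_of_exponent_le (one_le_pow₀ (by norm_num)) hE1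
      _ = 2 ^ (n + 2 + s) := Real.rpow_one _
  have h3 := mul_le_mul_of_nonneg_right h2 (Real.rpow_nonneg hPR (expQ n (n + 2 + s)))
  refine h3.trans (le_of_eq ?_)
  unfold expQ
  push_cast
  rfl

/-- Q2. -/
theorem sel_q {n r : ℕ} (hn : 1 ≤ n) (hr : n + 2 ≤ r) (R : Fin r → ℕ) (hR : ∀ i, 1 ≤ R i) :
    ∃ e : Fin (n + 2) → Fin r, Function.Injective e ∧ ∀ t j l : Fin (n + 2), t ≠ j → t ≠ l → j ≠ l →
      (∀ i, R (e i) ≤ R (e t)) →
      (((∏ i, R (e i) : ℕ) : ℝ) / (R (e t) * Real.sqrt (R (e j) * R (e l)))) ≤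
        ((∏ i, R i : ℕ) : ℝ) ^ (max ((n : ℝ) / r) (((n : ℝ) - 1) / (r - 2))) := by
  obtain ⟨s, rfl⟩ : ∃ s, r = n + 2 + s := ⟨r - (n + 2), by omega⟩
  obtain ⟨e, f, he, hle, hg⟩ := exists_small R
  refine ⟨e, he, fun t j l htj htl hjl hmax => ?_⟩
  have hZ : (∏ i, (R (e i) : ℝ)) * (R (e t) : ℝ) ^ s ≤ ∏ i, (R i : ℝ) := by
    rw [hg fun i => (R i : ℝ)]
    refine mul_le_mul le_rfl ?_ (by positivity) (Finset.prod_nonneg fun i _ => by positivity)
    have h1 : (R (e t) : ℝ) ^ s = ∏ _k : Fin s, (R (e t) : ℝ) := by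
      rw [Finset.prod_const, Finset.card_univ, Fintype.card_fin]
    rw [h1]
    exact Finset.prod_le_prod (fun i _ => Nat.cast_nonneg _) fun k _ => by exact_mod_cast hle t k
  have h1 := sel_core hn (fun i => (R (e i) : ℝ)) (fun i => by exact_mod_cast hR (e i)) t j l htj htl hjl
    (fun i => by exact_mod_cast hmax i) hZ
  push_cast at h1 ⊢
  refine h1.trans (le_of_eq ?_)
  unfold expQ
  push_cast
  rfl

end Pool.Agent.Helper87.RP
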