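import Pool.Agent.Helper24.TU.Pick
import Pool.Agent.Helper24.TV.BadD

/-!
RP-5 (MP_464c42_nt). (a) In a vector with sum zero, small gcd and a large entry, for every index `t` there are two indices `b, b'` such that
`a b`, `a b'` have no small ratio to `a t`. (b) From small `radM` of `x` and large `radM` of `y` to a squarefree `d` with `d ^ M3 ∣ y` and
`p ^ M` not dividing `x` for `p ∣ d`. (c) The elementary inequalities for the products.

Proof of (a). Suppose not: there is `b0 ≠ t` such that every `b ≠ t, b0` has a small ratio: (as in `pick`, `Helper24/TU/Pick.lean`) nonzero `p_b, r_b`,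
`|p_b| ≤ L`, `|r_b| ≤ 2 L`, `a b * p_b = a t * r_b`. Let `Π = ∏_{b ≠ t, b0} p_b` (`n` factors), `|Π| ≤ L ^ n`. For all `i ≠ b0`: `Π * a i = a t * z_i`,
`|z_i| ≤ 2 L ^ (n + 1)`... (`|Π / p_b * r_b| ≤ 2 L ^ n`), and `Π * a b0 = - ∑_{i ≠ b0} Π * a i = a t * z`, `|z| ≤ (2 n + 1) L ^ n`. So `a t ∣ Π * a i`
for all `i`, hence `a t ∣ Π * gcd`, `|a t| ≤ L ^ n * G` (as in `pick`), and `|a i| ≤ |Π * a i| = |a t| |z_i| ≤ (2 n + 1) L ^ n * (L ^ n * G)`, so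
`N ≤ G * |a i| ≤ G ^ 2 * ((2 n + 1) * L ^ (2 n + 1)) < N`.
(b) The primes `p ∉ S`, `p ≤ W3`, `p ^ M3 ∣ y` with `p ^ M ∣ x` have product at most `radM S M W x ≤ D`; the others have product `> D`; `greedy` as in `bad_d`.
-/

set_option autoImplicit false

open Pool.Agent.Helper87.Camp Pool.Agent.Helper10 Pool.Agent.Helper91.CPX

namespace Pool.Agent.Helper87.RP

open Pool.Agent.Helper24.TU Pool.Agent.Helper24.TV

theorem pickT {n : ℕ} (hn : 1 ≤ n) (a : Fin (n + 2) → ℤ) (ha : ∀ i, a i ≠ 0) (hs : ∑ i, a i = 0)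
    (G L N : ℤ) (hG1 : 0 ≤ G) (hL : 1 ≤ L) (hG : ∀ g : ℤ, (∀ i, g ∣ a i) → |g| ≤ G)
    (hN : ∃ i, N ≤ G * |a i|) (hbig : G ^ 2 * ((2 * n + 1) * L ^ (2 * n + 1)) < N)
    (t : Fin (n + 2)) :
    ∃ b b' : Fin (n + 2), t ≠ b ∧ t ≠ b' ∧ b ≠ b' ∧ NoSmallRatio (a t) (a t + a b) L ∧
      NoSmallRatio (a t) (a t + a b') L := by
  classical
  by_contra hcon
  have hb0 : ∃ b0, t ≠ b0 ∧ ∀ b, b ≠ t → b ≠ b0 → ¬ NoSmallRatio (a t) (a t + a b) L := by
    by_cases h : ∃ b1, t ≠ b1 ∧ NoSmallRatio (a t) (a t + a b1) L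
    · obtain ⟨b1, h1, h2⟩ := h
      exact ⟨b1, h1, fun b hb hb1 h3 => hcon ⟨b, b1, Ne.symm hb, h1, hb1, h3, h2⟩⟩
    · push Not at h
      obtain ⟨b0, hb0⟩ := exists_ne t
      exact ⟨b0, hb0.symm, fun b hb _ => h b hb.symm⟩
  obtain ⟨b0, htb, hsm⟩ := hb0
  obtain ⟨I, hI⟩ : ∃ I : Finset (Fin (n + 2)), I = (Finset.univ.erase b0).erase t := ⟨_, rfl⟩
  have hmI : ∀ l, l ∈ I ↔ l ≠ t ∧ l ≠ b0 := by
    intro l
    rw [hI, Finset.mem_erase, Finset.mem_erase]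
    simp
  have hIc : I.card = n := by
    rw [hI, Finset.card_erase_of_mem (Finset.mem_erase.2 ⟨htb, Finset.mem_univ t⟩),
      Finset.card_erase_of_mem (Finset.mem_univ b0), Finset.card_univ, Fintype.card_fin]
    rfl
  have hex : ∀ l, ∃ s u : ℤ, l ∈ I → s ≠ 0 ∧ |s| ≤ L ∧ |u| ≤ 2 * L ∧ a l * s = a t * u := by
    intro l
    by_cases hl : l ∈ I
    · have h1 := hsm l ((hmI l).1 hl).1 ((hmI l).1 hl).2
      unfold NoSmallRatio at h1
      push Not at h1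
      obtain ⟨p, q, hp, hq, he, hpq⟩ := h1
      have hp0 : p ≠ 0 := by
        intro hp0
        rw [hp0, mul_zero] at he
        rcases mul_eq_zero.1 he with h2 | h2
        · exact ha t h2
        · exact hpq hp0 h2
      refine ⟨p, q - p, fun _ => ⟨hp0, hp, ?_, ?_⟩⟩
      · rw [abs_le] at hp hq ⊢
        constructor <;> linarith [hp.1, hp.2, hq.1, hq.2]
      · linarith [mul_sub (a t) q p, add_mul (a t) (a l) p]
    · exact ⟨0, 0, fun h => absurd h hl⟩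
  choose s u hsu using hex
  obtain ⟨P, hP⟩ : ∃ P : ℤ, P = ∏ l ∈ I, s l := ⟨_, rfl⟩
  have hP0 : P ≠ 0 := by
    rw [hP]
    exact Finset.prod_ne_zero_iff.2 fun l hl => (hsu l hl).1
  have hPL : |P| ≤ L ^ n := by
    rw [hP, Finset.abs_prod]
    refine (Finset.prod_le_prod (fun l _ => abs_nonneg _) fun l hl => (hsu l hl).2.1).trans ?_
    rw [Finset.prod_const, hIc]
  have hLn : 0 ≤ L ^ n := pow_nonneg (by omega) n
  -- the entries in `I`
  have hz : ∀ i ∈ I, P * a i = a t * (u i * ∏ l ∈ I.erase i, s l) ∧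
      |u i * ∏ l ∈ I.erase i, s l| ≤ 2 * L ^ n := by
    intro i hi
    have h1 : P = s i * ∏ l ∈ I.erase i, s l := by
      rw [hP, Finset.mul_prod_erase _ _ hi]
    obtain ⟨-, -, h3, h4⟩ := hsu i hi
    refine ⟨?_, ?_⟩
    · calc P * a i = (a i * s i) * ∏ l ∈ I.erase i, s l := by rw [h1]; ring
        _ = a t * (u i * ∏ l ∈ I.erase i, s l) := by rw [h4]; ring
    · rw [abs_mul, Finset.abs_prod]
      have h5 : ∏ l ∈ I.erase i, |s l| ≤ ∏ _l ∈ I.erase i, L :=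
        Finset.prod_le_prod (fun l _ => abs_nonneg _)
          fun l hl => (hsu l (Finset.mem_of_mem_erase hl)).2.1
      have h6 : L * ∏ _l ∈ I.erase i, L = L ^ n := by
        rw [Finset.mul_prod_erase I (fun _ => L) hi, Finset.prod_const, hIc]
      calc |u i| * ∏ l ∈ I.erase i, |s l| ≤ (2 * L) * ∏ _l ∈ I.erase i, L :=
            mul_le_mul h3 h5 (Finset.prod_nonneg fun l _ => abs_nonneg _) (by omega)
        _ = 2 * L ^ n := by rw [mul_assoc, h6]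
  -- all entries
  have hall : ∀ i, ∃ w : ℤ, P * a i = a t * w ∧ |w| ≤ (2 * n + 1) * L ^ n := by
    intro i
    have hn0 : (0 : ℤ) ≤ n := Int.natCast_nonneg n
    have hn1 : (1 : ℤ) ≤ n := by exact_mod_cast hn
    by_cases hib : i = b0
    · refine ⟨-(P + ∑ l ∈ I, u l * ∏ l' ∈ I.erase l, s l'), ?_, ?_⟩
      · have h1 : a b0 + (a t + ∑ l ∈ I, a l) = 0 := by
          rw [hI, Finset.add_sum_erase _ _ (Finset.mem_erase.2 ⟨htb, Finset.mem_univ t⟩),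
            Finset.add_sum_erase _ _ (Finset.mem_univ b0)]
          exact hs
        have h2 : P * ∑ l ∈ I, a l = a t * ∑ l ∈ I, u l * ∏ l' ∈ I.erase l, s l' := by
          rw [Finset.mul_sum, Finset.mul_sum]
          exact Finset.sum_congr rfl fun l hl => (hz l hl).1
        rw [hib]
        calc P * a b0 = -(P * a t + P * ∑ l ∈ I, a l) := by
              have : a b0 = -(a t + ∑ l ∈ I, a l) := by linarith
              rw [this]; ring
          _ = a t * -(P + ∑ l ∈ I, u l * ∏ l' ∈ I.erase l, s l') := by rw [h2]; ring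
      · rw [abs_neg]
        calc |P + ∑ l ∈ I, u l * ∏ l' ∈ I.erase l, s l'|
            ≤ |P| + ∑ l ∈ I, |u l * ∏ l' ∈ I.erase l, s l'| :=
              (abs_add_le _ _).trans (add_le_add_right (Finset.abs_sum_le_sum_abs _ _) _)
          _ ≤ L ^ n + ∑ _l ∈ I, 2 * L ^ n :=
              add_le_add hPL (Finset.sum_le_sum fun l hl => (hz l hl).2)
          _ = (2 * n + 1) * L ^ n := by
              rw [Finset.sum_const, hIc, nsmul_eq_mul]; ring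
    · by_cases hit : i = t
      · refine ⟨P, ?_, ?_⟩
        · rw [hit]; ring
        · nlinarith
      · obtain ⟨h1, h2⟩ := hz i ((hmI i).2 ⟨hit, hib⟩)
        refine ⟨_, h1, ?_⟩
        nlinarith
  have hg : a t ∣ (Finset.univ.gcd a) * P := by
    have h1 : a t ∣ Finset.univ.gcd fun l => a l * P := Finset.dvd_gcd fun l _ => by
      obtain ⟨w, hw, -⟩ := hall l
      rw [mul_comm (a l) P, hw]
      exact dvd_mul_right _ _
    rw [Finset.gcd_mul_right] at h1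
    exact h1.trans (mul_dvd_mul_left _ (normalize_dvd_iff.2 dvd_rfl))
  have hg0 : Finset.univ.gcd a ≠ 0 := by
    intro h
    rw [Finset.gcd_eq_zero_iff] at h
    exact ha t (h t (Finset.mem_univ t))
  have hgG : |Finset.univ.gcd a| ≤ G := hG _ fun i => Finset.gcd_dvd (Finset.mem_univ i)
  have h1 : |a t| ≤ |Finset.univ.gcd a * P| :=
    Int.le_of_dvd (abs_pos.2 (mul_ne_zero hg0 hP0)) ((abs_dvd_abs _ _).2 hg)
  rw [abs_mul] at h1
  have h2 : |a t| ≤ G * L ^ n := h1.trans (mul_le_mul hgG hPL (abs_nonneg _) hG1)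
  obtain ⟨i, hi⟩ := hN
  obtain ⟨w, hw, hwL⟩ := hall i
  have hP1 : 1 ≤ |P| := Int.one_le_abs hP0
  have h3 : |a i| ≤ (G * L ^ n) * ((2 * n + 1) * L ^ n) := by
    calc |a i| ≤ |P| * |a i| := le_mul_of_one_le_left (abs_nonneg _) hP1
      _ = |a t| * |w| := by rw [← abs_mul, hw, abs_mul]
      _ ≤ (G * L ^ n) * ((2 * n + 1) * L ^ n) :=
          mul_le_mul h2 hwL (abs_nonneg _) (mul_nonneg hG1 hLn)
  have h4 : N ≤ G * ((G * L ^ n) * ((2 * n + 1) * L ^ n)) := hi.trans (mul_le_mul_of_nonneg_left h3 hG1)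
  have h5 : G * ((G * L ^ n) * ((2 * n + 1) * L ^ n)) ≤ G ^ 2 * ((2 * n + 1) * L ^ (2 * n + 1)) := by
    have h6 : L ^ (2 * n) ≤ L ^ (2 * n + 1) := pow_le_pow_right₀ hL (by omega)
    have h7 : (0 : ℤ) ≤ G ^ 2 * (2 * n + 1) := by positivity
    calc G * ((G * L ^ n) * ((2 * n + 1) * L ^ n)) = (G ^ 2 * (2 * n + 1)) * L ^ (2 * n) := by
          rw [two_mul n, pow_add]; ring
      _ ≤ (G ^ 2 * (2 * n + 1)) * L ^ (2 * n + 1) := mul_le_mul_of_nonneg_left h6 h7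
      _ = G ^ 2 * ((2 * n + 1) * L ^ (2 * n + 1)) := by ring
  linarith

theorem bad_pair (S : Finset ℕ) (M W M3 W3 D : ℕ) (x y : ℤ) (hM : 1 ≤ M) (hM3 : 1 ≤ M3)
    (hW3 : 1 ≤ W3) (hWW : W3 ≤ W) (hD : 1 ≤ D) (hx0 : x ≠ 0) (hy0 : y ≠ 0)
    (hx : radM S M W x ≤ D) (hy : D * D < radM S M3 W3 y) :
    ∃ d : ℕ, Squarefree d ∧ D ≤ d ∧ d ≤ D * W3 ∧ (d : ℤ) ^ M3 ∣ y ∧
      ∀ p ∈ d.primeFactors, p.Prime ∧ p ∉ S ∧ p ≤ W3 ∧ ¬ (p : ℤ) ^ M ∣ x := by
  classical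
  obtain ⟨Q, hQ⟩ : ∃ Q : Finset ℕ, Q = y.natAbs.primeFactors.filter
    (fun p => p ∉ S ∧ p ≤ W3 ∧ p ^ M3 ∣ y.natAbs) := ⟨_, rfl⟩
  have hQm : ∀ p ∈ Q, p.Prime ∧ p ∣ y.natAbs ∧ p ∉ S ∧ p ≤ W3 ∧ p ^ M3 ∣ y.natAbs := by
    intro p hp
    rw [hQ, Finset.mem_filter, Nat.mem_primeFactors] at hp
    exact ⟨hp.1.1, hp.1.2.1, hp.2.1, hp.2.2.1, hp.2.2.2⟩
  have hradQ : radM S M3 W3 y = ∏ p ∈ Q, p := by rw [hQ]; rfl
  have hsplit : (∏ p ∈ Q.filter (fun p => p ^ M ∣ x.natAbs), p) *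
      (∏ p ∈ Q.filter (fun p => ¬ p ^ M ∣ x.natAbs), p) = ∏ p ∈ Q, p :=
    Finset.prod_filter_mul_prod_filter_not Q _ _
  have h1 : (∏ p ∈ Q.filter (fun p => p ^ M ∣ x.natAbs), p) ≤ D := by
    refine le_trans ?_ hx
    unfold radM
    refine Finset.prod_le_prod_of_subset_of_one_le' (fun p hp => ?_) fun p hp _ => ?_
    · rw [Finset.mem_filter] at hp
      obtain ⟨h2, -, h4, h5, -⟩ := hQm p hp.1
      rw [Finset.mem_filter, Nat.mem_primeFactors]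
      exact ⟨⟨h2, (dvd_pow_self p (by omega)).trans hp.2, Int.natAbs_ne_zero.2 hx0⟩, h4,
        h5.trans hWW, hp.2⟩
    · exact (Nat.prime_of_mem_primeFactors (Finset.mem_filter.1 hp).1).one_lt.le
  obtain ⟨Q2, hQ2⟩ : ∃ Q2 : Finset ℕ, Q2 = Q.filter (fun p => ¬ p ^ M ∣ x.natAbs) := ⟨_, rfl⟩
  rw [← hQ2] at hsplit
  have hQ2m : ∀ p ∈ Q2, p ∈ Q ∧ ¬ p ^ M ∣ x.natAbs := by
    intro p hp
    rw [hQ2, Finset.mem_filter] at hp
    exact hp
  have h2 : D < ∏ p ∈ Q2, p := by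
    by_contra h
    rw [not_lt] at h
    have h3 := Nat.mul_le_mul h1 h
    rw [hsplit, ← hradQ] at h3
    omega
  rcases greedy Q2 W3 D (fun p hp => ⟨(hQm p (hQ2m p hp).1).1.one_lt.le,
    (hQm p (hQ2m p hp).1).2.2.2.1⟩) hD hW3 with hlt | ⟨Q', hQ'Q, hQl, hQu⟩
  · omega
  have hpr : ∀ p ∈ Q', p.Prime := fun p hp => (hQm p (hQ2m p (hQ'Q hp)).1).1
  refine ⟨∏ p ∈ Q', p, sqf_prod Q' hpr, hQl, hQu, ?_, ?_⟩
  · have h3 : (∏ p ∈ Q', p) ^ M3 ∣ y.natAbs := by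
      rw [← Finset.prod_pow]
      apply Finset.prod_dvd_of_isRelPrime
      · intro p hp q hq hpq
        exact Nat.coprime_iff_isRelPrime.mp
          (Nat.Coprime.pow M3 M3 ((Nat.coprime_primes (hpr p hp) (hpr q hq)).mpr hpq))
      · intro p hp
        exact (hQm p (hQ2m p (hQ'Q hp)).1).2.2.2.2
    have h4 : (((∏ p ∈ Q', p) ^ M3 : ℕ) : ℤ) ∣ y := Int.natCast_dvd.mpr h3
    rw [Nat.cast_pow] at h4
    exact h4
  · intro p hp
    rw [pf_prod Q' hpr] at hp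
    obtain ⟨h3, h4⟩ := hQ2m p (hQ'Q hp)
    obtain ⟨h5, -, h6, h7, -⟩ := hQm p h3
    refine ⟨h5, h6, h7, fun h8 => h4 ?_⟩
    have h9 : ((p ^ M : ℕ) : ℤ) ∣ x := by
      rw [Nat.cast_pow]
      exact h8
    exact Int.natCast_dvd.mp h9

theorem le_rpow_of_pow_le {n : ℕ} (hn : 1 ≤ n) {x P : ℝ} (hx : 0 ≤ x) (hP : 0 ≤ P)
    (h : x ^ n ≤ P ^ (n - 1)) : x ≤ P ^ (((n : ℝ) - 1) / n) := by
  have hn0 : (n : ℝ) ≠ 0 := by
    have : n ≠ 0 := by omega
    exact_mod_cast this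
  have h1 : (P ^ (((n : ℝ) - 1) / n)) ^ n = P ^ (n - 1) := by
    rw [← Real.rpow_natCast (P ^ (((n : ℝ) - 1) / n)) n, ← Real.rpow_mul hP, div_mul_cancel₀ _ hn0,
      ← Real.rpow_natCast P (n - 1)]
    congr 1
    push_cast [Nat.cast_sub hn]
    ring
  rw [← h1] at h
  exact (pow_le_pow_iff_left₀ hx (Real.rpow_nonneg hP _) (by omega)).1 h

theorem prod_pair {n : ℕ} (hn : 2 ≤ n) (Y : Fin (n + 2) → ℕ) (hY : ∀ i, 1 ≤ Y i) (t b b' : Fin (n + 2))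
    (htb : t ≠ b) (htb' : t ≠ b') (hbb : b ≠ b') (ht : ∀ i, Y i ≤ Y t) (hb : Y b' ≤ Y b) :
    (∏ h ∈ (Finset.univ.erase t).erase b, (Y h : ℝ)) ≤
      (∏ h, (Y h : ℝ)) ^ (((n : ℝ) - 1) / n) := by
  classical
  have hY1 : ∀ i, (1 : ℝ) ≤ Y i := fun i => by exact_mod_cast hY i
  have hY0 : ∀ i, (0 : ℝ) ≤ Y i := fun i => (zero_le_one).trans (hY1 i)
  have ht' : ∀ i, (Y i : ℝ) ≤ Y t := fun i => by exact_mod_cast ht i
  have hb1 : (Y b' : ℝ) ≤ Y b := by exact_mod_cast hb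
  obtain ⟨R, hR⟩ : ∃ R : ℝ, R = ∏ h ∈ (Finset.univ.erase t).erase b, (Y h : ℝ) := ⟨_, rfl⟩
  have hmb : b ∈ Finset.univ.erase t := Finset.mem_erase.2 ⟨htb.symm, Finset.mem_univ b⟩
  have hmb' : b' ∈ (Finset.univ.erase t).erase b :=
    Finset.mem_erase.2 ⟨hbb.symm, Finset.mem_erase.2 ⟨htb'.symm, Finset.mem_univ b'⟩⟩
  have hP : (∏ h, (Y h : ℝ)) = Y t * (Y b * R) := by
    rw [hR, Finset.mul_prod_erase _ (fun h => (Y h : ℝ)) hmb,
      Finset.mul_prod_erase _ (fun h => (Y h : ℝ)) (Finset.mem_univ t)]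
  have hR0 : 0 ≤ R := by
    rw [hR]
    exact Finset.prod_nonneg fun i _ => hY0 i
  have hRle : R ≤ Y b * (Y t : ℝ) ^ (n - 1) := by
    have h1 : R = Y b' * ∏ h ∈ ((Finset.univ.erase t).erase b).erase b', (Y h : ℝ) := by
      rw [hR, Finset.mul_prod_erase _ (fun h => (Y h : ℝ)) hmb']
    have hc : (((Finset.univ.erase t).erase b).erase b').card = n - 1 := by
      rw [Finset.card_erase_of_mem hmb', Finset.card_erase_of_mem hmb,
        Finset.card_erase_of_mem (Finset.mem_univ t), Finset.card_univ, Fintype.card_fin]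
      omega
    have h2 : ∏ h ∈ ((Finset.univ.erase t).erase b).erase b', (Y h : ℝ) ≤ (Y t : ℝ) ^ (n - 1) := by
      rw [← hc, ← Finset.prod_const]
      exact Finset.prod_le_prod (fun i _ => hY0 i) fun i _ => ht' i
    rw [h1]
    exact mul_le_mul hb1 h2 (Finset.prod_nonneg fun i _ => hY0 i) (hY0 b)
  have hle : R ≤ ((Y t : ℝ) * Y b) ^ (n - 1) := by
    refine hRle.trans ?_
    rw [mul_pow, mul_comm]
    refine mul_le_mul_of_nonneg_left ?_ (pow_nonneg (hY0 t) _)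
    exact le_self_pow₀ (hY1 b) (by omega)
  rw [← hR]
  refine le_rpow_of_pow_le (by omega) hR0 (Finset.prod_nonneg fun i _ => hY0 i) ?_
  rw [hP]
  calc R ^ n = R * R ^ (n - 1) := by
        rw [← pow_succ']
        congr 1
        omega
    _ ≤ ((Y t : ℝ) * Y b) ^ (n - 1) * R ^ (n - 1) :=
        mul_le_mul_of_nonneg_right hle (pow_nonneg hR0 _)
    _ = (Y t * (Y b * R)) ^ (n - 1) := by
        rw [← mul_pow]
        congr 1
        ring

theorem prod_triple {n : ℕ} (hn : 2 ≤ n) (Y : Fin (n + 2) → ℕ) (hY : ∀ i, 1 ≤ Y i) (t j l : Fin (n + 2))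
    (htj : t ≠ j) (htl : t ≠ l) (hjl : j ≠ l) (ht : ∀ i, Y i ≤ Y t) :
    (∏ h ∈ ((Finset.univ.erase t).erase j).erase l, (Y h : ℝ)) * Real.sqrt ((Y j : ℝ) * Y l) ≤
      (∏ h, (Y h : ℝ)) ^ (((n : ℝ) - 1) / n) := by
  classical
  have hY1 : ∀ i, (1 : ℝ) ≤ Y i := fun i => by exact_mod_cast hY i
  have hY0 : ∀ i, (0 : ℝ) ≤ Y i := fun i => (zero_le_one).trans (hY1 i)
  have ht' : ∀ i, (Y i : ℝ) ≤ Y t := fun i => by exact_mod_cast ht i
  obtain ⟨R, hR⟩ : ∃ R : ℝ, R = ∏ h ∈ ((Finset.univ.erase t).erase j).erase l, (Y h : ℝ) := ⟨_, rfl⟩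
  have hmj : j ∈ Finset.univ.erase t := Finset.mem_erase.2 ⟨htj.symm, Finset.mem_univ j⟩
  have hml : l ∈ (Finset.univ.erase t).erase j :=
    Finset.mem_erase.2 ⟨hjl.symm, Finset.mem_erase.2 ⟨htl.symm, Finset.mem_univ l⟩⟩
  have hP : (∏ h, (Y h : ℝ)) = Y t * (Y j * (Y l * R)) := by
    rw [hR, Finset.mul_prod_erase _ (fun h => (Y h : ℝ)) hml,
      Finset.mul_prod_erase _ (fun h => (Y h : ℝ)) hmj,
      Finset.mul_prod_erase _ (fun h => (Y h : ℝ)) (Finset.mem_univ t)]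
  have hR0 : 0 ≤ R := by
    rw [hR]
    exact Finset.prod_nonneg fun i _ => hY0 i
  have hRle : R ≤ (Y t : ℝ) ^ (n - 1) := by
    have hc : (((Finset.univ.erase t).erase j).erase l).card = n - 1 := by
      rw [Finset.card_erase_of_mem hml, Finset.card_erase_of_mem hmj,
        Finset.card_erase_of_mem (Finset.mem_univ t), Finset.card_univ, Fintype.card_fin]
      omega
    rw [hR, ← hc, ← Finset.prod_const]
    exact Finset.prod_le_prod (fun i _ => hY0 i) fun i _ => ht' i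
  obtain ⟨s, hs⟩ : ∃ s : ℝ, s = Real.sqrt ((Y j : ℝ) * Y l) := ⟨_, rfl⟩
  have hjl0 : (0 : ℝ) ≤ (Y j : ℝ) * Y l := mul_nonneg (hY0 j) (hY0 l)
  have hss : s ^ 2 = (Y j : ℝ) * Y l := by rw [hs, Real.sq_sqrt hjl0]
  have hs1 : 1 ≤ s := by
    rw [hs]
    refine Real.one_le_sqrt.2 ?_
    nlinarith [hY1 j, hY1 l]
  have hs0 : 0 ≤ s := zero_le_one.trans hs1
  rw [← hR, ← hs]
  refine le_rpow_of_pow_le (by omega) (mul_nonneg hR0 hs0) (Finset.prod_nonneg fun i _ => hY0 i) ?_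
  have h1 : s ^ n ≤ (s ^ 2) ^ (n - 1) := by
    rw [← pow_mul]
    exact pow_le_pow_right₀ hs1 (by omega)
  rw [hP]
  calc (R * s) ^ n = (R * R ^ (n - 1)) * s ^ n := by
        rw [← pow_succ', mul_pow]
        congr 2
        omega
    _ ≤ ((Y t : ℝ) ^ (n - 1) * R ^ (n - 1)) * (s ^ 2) ^ (n - 1) :=
        mul_le_mul (mul_le_mul_of_nonneg_right hRle (pow_nonneg hR0 _)) h1 (pow_nonneg hs0 _)
          (mul_nonneg (pow_nonneg (hY0 t) _) (pow_nonneg hR0 _))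
    _ = (Y t * (Y j * (Y l * R))) ^ (n - 1) := by
        rw [hss, ← mul_pow, ← mul_pow]
        congr 1
        ring

end Pool.Agent.Helper87.RP
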