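import Pool.Agent.Helper24.TU.RkR
import Pool.Agent.Helper24.TU.Cnt
import Pool.Agent.Helper24.TV.Reg2V

/-!
RP-4 (MP_464c42_nt). Regime 2 with separate bounds: `a t` and `a b` have small `radM` and `a t` has no small ratio to `a t + a b`.

Proof. Copy `regime2V` (`Helper24/TV/Reg2V.lean`) / `regime2R` (`Helper24/TU/Reg2.lean`). `m0` from `rkR M H hM hH ε2`, `δ' = δ / (n + 1)`. Split `T` by the
values `a h`, `h ≠ t, b` (`rset_count S δ'`: at most `∏ C1 Y_h N^δ'` choices, `n` indices); in one class `k = a t + a b = - ∑_{h ≠ t, b} a h` is fixed,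
`rkR` bounds the image of `a ↦ a t` (`k - a t = a b`, `Rset S (Y i) N ⊆ Rset S X N`), and `a b` is determined.
-/

set_option autoImplicit false

open Pool.Agent.Helper87.Camp Pool.Agent.Helper10 Pool.Agent.Helper91.CPX

namespace Pool.Agent.Helper87.RP

open Pool.Agent.Helper24.TU Pool.Agent.Helper24.TV

private lemma r2_sum_tb {n : ℕ} {t b : Fin (n + 2)} (htb : t ≠ b) (a : Fin (n + 2) → ℤ) :
    ∑ i, a i = a t + a b + ∑ h ∈ (Finset.univ.erase t).erase b, a h := by
  classical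
  rw [← Finset.add_sum_erase Finset.univ a (Finset.mem_univ t),
    ← Finset.add_sum_erase (Finset.univ.erase t) a
      (Finset.mem_erase.2 ⟨Ne.symm htb, Finset.mem_univ b⟩)]
  ring

theorem reg2 (n M H : ℕ) (hn : 1 ≤ n) (hM : 1 ≤ M) (hH : 1 ≤ H) (ε2 : ℝ) (hε2 : 0 < ε2) :
    ∃ m0 : ℕ, 1 ≤ m0 ∧ ∀ m : ℕ, m0 ≤ m → ∀ S : Finset ℕ, ∀ δ : ℝ, 0 < δ → ∃ C : ℝ, 1 ≤ C ∧
      ∀ (N X W D : ℕ) (Y : Fin (n + 2) → ℕ), 1 ≤ N → 2 ≤ X → W ≤ X → 1 ≤ D → X ≤ W ^ H →
      N ≤ W ^ (H * m) → (∀ i, 1 ≤ Y i ∧ Y i ≤ X) → ∀ t b : Fin (n + 2), t ≠ b →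
      ∀ T : Finset (Fin (n + 2) → ℤ),
      (∀ a ∈ T, (∀ i, a i ∈ Rset S (Y i) N) ∧ ∑ i, a i = 0 ∧ radM S M W (a t) ≤ D ∧
        radM S M W (a b) ≤ D ∧ NoSmallRatio (a t) (a t + a b) ((X : ℤ) ^ m0)) →
      (T.card : ℝ) ≤ C * (D : ℝ) ^ 4 *
        ((∏ h ∈ (Finset.univ.erase t).erase b, (Y h : ℝ)) * ((X : ℝ) ^ ε2 * (N : ℝ) ^ δ)) := by
  classical
  obtain ⟨m0, hm0, hrk⟩ := rkR M H hM hH ε2 hε2
  refine ⟨m0, hm0, fun m hm S δ hδ => ?_⟩
  have hn1 : (0 : ℝ) < (n : ℝ) + 1 := by positivity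
  obtain ⟨δ', hδ'⟩ : ∃ δ' : ℝ, δ' = δ / ((n : ℝ) + 1) := ⟨_, rfl⟩
  have hδ'0 : 0 < δ' := by rw [hδ']; positivity
  obtain ⟨C2, hC2, hrk⟩ := hrk m hm S δ' hδ'0
  obtain ⟨C1, hC1, hA⟩ := rset_count S δ' hδ'0
  have hC1n : 1 ≤ C1 ^ n := one_le_pow₀ hC1
  refine ⟨C1 ^ n * C2, one_le_mul_of_one_le_of_one_le hC1n hC2, ?_⟩
  intro N X W D Y hN hX hWX hD hXW hW hY t b htb T hT
  have hN1 : (1 : ℝ) ≤ N := by exact_mod_cast hN
  have hN0 : (0 : ℝ) < N := by linarith
  obtain ⟨K, hK⟩ : ∃ K : ℝ, K = C2 * (D : ℝ) ^ 4 * ((X : ℝ) ^ ε2 * (N : ℝ) ^ δ') := ⟨_, rfl⟩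
  have hK0 : 0 ≤ K := by rw [hK]; positivity
  obtain ⟨I, hI⟩ : ∃ I : Finset (Fin (n + 2)), I = (Finset.univ.erase t).erase b := ⟨_, rfl⟩
  have hmI : ∀ h, h ∈ I ↔ h ≠ b ∧ h ≠ t := by
    intro h
    rw [hI, Finset.mem_erase, Finset.mem_erase]
    simp
  have hIcard : I.card = n := by
    rw [hI, Finset.card_erase_of_mem (Finset.mem_erase.2 ⟨Ne.symm htb, Finset.mem_univ b⟩),
      Finset.card_erase_of_mem (Finset.mem_univ t), Finset.card_univ, Fintype.card_fin]
    omega
  let Z : Fin (n + 2) → Finset ℤ := fun h => if h ∈ I then Rset S (Y h) N else {0}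
  let P : Finset (Fin (n + 2) → ℤ) := Fintype.piFinset Z
  have hmX : ∀ h : Fin (n + 2), ∀ z : ℤ, z ∈ Rset S (Y h) N → z ∈ Rset S X N := by
    intro h z hz
    have h4 := mem_Rset.1 hz
    exact mem_Rset.2 ⟨h4.1, h4.2.1, h4.2.2.trans (hY h).2⟩
  have hstep : (T.card : ℝ) ≤ K * P.card := by
    apply card_le_real (fun a => (fun h => if h ∈ I then a h else 0))
    · intro a ha
      rw [Fintype.mem_piFinset]
      intro h
      by_cases hh : h ∈ I
      · simp only [Z, hh, if_true]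
        exact (hT a ha).1 h
      · simp only [Z, hh, if_false, Finset.mem_singleton]
    · rintro u _
      rcases (T.filter (fun a => (fun h => if h ∈ I then a h else 0) = u)).eq_empty_or_nonempty
        with h0 | ⟨a1, ha1⟩
      · rw [h0, Finset.card_empty, Nat.cast_zero]
        exact hK0
      · have hkey : ∀ a ∈ T.filter (fun a => (fun h => if h ∈ I then a h else 0) = u),
            a ∈ T ∧ ∀ h ∈ I, a h = u h := by
          intro a ha
          rw [Finset.mem_filter] at ha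
          refine ⟨ha.1, fun h hh => ?_⟩
          have h3 := congrFun ha.2 h
          simp only [hh, if_true] at h3
          exact h3
        have hsum : ∀ a ∈ T.filter (fun a => (fun h => if h ∈ I then a h else 0) = u),
            a t + a b + ∑ h ∈ I, u h = 0 := by
          intro a ha
          obtain ⟨haT, f2⟩ := hkey a ha
          have h3 := (hT a haT).2.1
          rw [r2_sum_tb htb a, ← hI, Finset.sum_congr rfl f2] at h3
          exact h3
        have h1 := hrk N X W D hN hX hWX hD hXW hW (-(∑ h ∈ I, u h))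
          ((T.filter (fun a => (fun h => if h ∈ I then a h else 0) = u)).image
            (fun a => a t)) (by
            intro w hw
            obtain ⟨a, ha, rfl⟩ := Finset.mem_image.1 hw
            obtain ⟨haT, f2⟩ := hkey a ha
            obtain ⟨g1, g2, g3, g4, g5⟩ := hT a haT
            have h5 := hsum a ha
            have e3 : -(∑ h ∈ I, u h) = a t + a b := by linarith
            have e4 : a t + a b - a t = a b := by ring
            rw [e3, e4]
            exact ⟨hmX t _ (g1 t), hmX b _ (g1 b), g3, g4, g5⟩)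
        have h2 : ((T.filter (fun a => (fun h => if h ∈ I then a h else 0) = u)).image
            (fun a => a t)).card =
            (T.filter (fun a => (fun h => if h ∈ I then a h else 0) = u)).card := by
          apply Finset.card_image_of_injOn
          intro a ha a' hb hab
          obtain ⟨haT, f2⟩ := hkey a (Finset.mem_coe.1 ha)
          obtain ⟨hbT, f4⟩ := hkey a' (Finset.mem_coe.1 hb)
          have i3 : a t = a' t := hab
          have hsa := hsum a (Finset.mem_coe.1 ha)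
          have hsb := hsum a' (Finset.mem_coe.1 hb)
          have i2 : a b = a' b := by
            rw [i3] at hsa
            linarith
          funext h
          by_cases hh : h ∈ I
          · rw [f2 h hh, f4 h hh]
          · rw [hmI] at hh
            by_cases hb' : h = b
            · rw [hb']; exact i2
            · have ht' : h = t := by
                by_contra hc
                exact hh ⟨hb', hc⟩
              rw [ht']; exact i3
        rw [h2] at h1
        rw [hK]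
        exact h1
  have hZ : ∀ h, ((Z h).card : ℝ) ≤ if h ∈ I then C1 * ((Y h : ℝ) * (N : ℝ) ^ δ') else 1 := by
    intro h
    by_cases hh : h ∈ I
    · simp only [Z, hh, if_true]
      exact hA (Y h) N (hY h).1 hN
    · simp only [Z, hh, if_false, Finset.card_singleton, Nat.cast_one, le_refl]
  have hP : (P.card : ℝ) ≤ C1 ^ n * ((∏ h ∈ I, (Y h : ℝ)) * ((N : ℝ) ^ δ') ^ n) := by
    have h1 : P.card = ∏ h, (Z h).card := Fintype.card_piFinset _
    rw [h1]
    push_cast
    calc ∏ h, ((Z h).card : ℝ) ≤ ∏ h, (if h ∈ I then C1 * ((Y h : ℝ) * (N : ℝ) ^ δ') else 1) :=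
          Finset.prod_le_prod (fun h _ => Nat.cast_nonneg _) (fun h _ => hZ h)
      _ = ∏ h ∈ I, (C1 * ((Y h : ℝ) * (N : ℝ) ^ δ')) := by
          rw [Finset.prod_ite_mem, Finset.univ_inter]
      _ = C1 ^ n * ((∏ h ∈ I, (Y h : ℝ)) * ((N : ℝ) ^ δ') ^ n) := by
          rw [Finset.prod_mul_distrib, Finset.prod_mul_distrib, Finset.prod_const, Finset.prod_const,
            hIcard]
  have hNδ : ((N : ℝ) ^ δ') ^ n * (N : ℝ) ^ δ' = (N : ℝ) ^ δ := by
    rw [← pow_succ, ← Real.rpow_natCast, ← Real.rpow_mul hN0.le]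
    congr 1
    rw [hδ']
    push_cast
    field_simp
  rw [← hI]
  calc (T.card : ℝ) ≤ K * (C1 ^ n * ((∏ h ∈ I, (Y h : ℝ)) * ((N : ℝ) ^ δ') ^ n)) :=
        hstep.trans (mul_le_mul_of_nonneg_left hP hK0)
    _ = C1 ^ n * C2 * (D : ℝ) ^ 4 * ((∏ h ∈ I, (Y h : ℝ)) * ((X : ℝ) ^ ε2 *
          (((N : ℝ) ^ δ') ^ n * (N : ℝ) ^ δ'))) := by rw [hK]; ring
    _ = _ := by rw [hNδ]

end Pool.Agent.Helper87.RP
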