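import Pool.Agent.Helper87.RP.Reg1
import Pool.Agent.Helper87.RP.RegPL
import Pool.Agent.Helper87.RP.Reg2
import Pool.Agent.Helper87.RP.Pick

/-!
RP-0 (MP_464c42_nt). `n + 2 ≥ 4` terms with sum zero and radicals at most `Y i`: at most `C (∏ Y i) ^ ((n - 1) / n) N ^ (ε lam)` solutions.
(helper87)
-/

set_option autoImplicit false

open Pool.Agent.Helper87.Camp Pool.Agent.Helper10 Pool.Agent.Helper91.CPX

namespace Pool.Agent.Helper87.RP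

open Pool.Agent.Helper24.TU Pool.Agent.Helper24.TV

private lemma ap_large (c : ℝ) (hc : 0 < c) (K : ℝ) :
    ∃ N1 : ℕ, 1 ≤ N1 ∧ ∀ N : ℕ, N1 ≤ N → K ≤ (N : ℝ) ^ c := by
  have h := (tendsto_rpow_atTop hc).comp tendsto_natCast_atTop_atTop
  obtain ⟨N1, hN1⟩ := Filter.eventually_atTop.1 (h.eventually_ge_atTop K)
  exact ⟨max N1 1, le_max_right _ _, fun N hN => hN1 N (le_trans (le_max_left _ _) hN)⟩

private lemma ap_triv (n N N1 : ℕ) (hN : N ≤ N1) (T : Finset (Fin (n + 2) → ℤ))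
    (hT : ∀ a ∈ T, ∀ i, (a i).natAbs ≤ N) : (T.card : ℝ) ≤ (2 * (N1 : ℝ) + 1) ^ (n + 2) := by
  classical
  have hsub : T ⊆ Fintype.piFinset fun _ : Fin (n + 2) => Finset.Icc (-(N1 : ℤ)) N1 := by
    intro a ha
    rw [Fintype.mem_piFinset]
    intro i
    have := hT a ha i
    rw [Finset.mem_Icc]
    omega
  have h1 := Finset.card_le_card hsub
  rw [Fintype.card_piFinset, Finset.prod_const, Finset.card_univ, Fintype.card_fin,
    Int.card_Icc] at h1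
  have h2 : ((N1 : ℤ) + 1 - -(N1 : ℤ)).toNat = 2 * N1 + 1 := by omega
  rw [h2] at h1
  exact_mod_cast h1

private lemma cop_of (x : ℤ) (d : ℕ) (hd : d ≠ 0) (h : ∀ p ∈ d.primeFactors, ¬ (p : ℤ) ∣ x) :
    IsCoprime x (d : ℤ) := by
  rw [Int.isCoprime_iff_gcd_eq_one]
  by_contra hne
  obtain ⟨p, hp, hpd⟩ := Nat.exists_prime_and_dvd hne
  have h1 : (p : ℤ) ∣ x := (Int.natCast_dvd_natCast.2 hpd).trans (Int.gcd_dvd_left ..)
  have h2 : (p : ℤ) ∣ (d : ℤ) := (Int.natCast_dvd_natCast.2 hpd).trans (Int.gcd_dvd_right ..)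
  exact h p (Nat.mem_primeFactors.2 ⟨hp, by exact_mod_cast h2, hd⟩) h1

private lemma ceil_facts (x : ℝ) (hx : 1 ≤ x) :
    x ≤ (⌈x⌉₊ : ℝ) ∧ (⌈x⌉₊ : ℝ) ≤ 2 * x ∧ 1 ≤ ⌈x⌉₊ := by
  refine ⟨Nat.le_ceil _, ?_, Nat.one_le_ceil_iff.2 (by linarith)⟩
  have := Nat.ceil_lt_add_one (show 0 ≤ x by linarith)
  linarith

/-- From a large `radM` of `a t` to a number `d` and two entries coprime to `d`. -/
private lemma caseI {n : ℕ} (hn : 1 ≤ n) (S : Finset ℕ) (M1 W D K : ℕ) (a : Fin (n + 2) → ℤ)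
    (t : Fin (n + 2)) (hW : 1 ≤ W) (hD : 1 ≤ D)
    (hpr : ∀ p : ℕ, p.Prime → p ∉ S → ∃ j l, j ≠ l ∧ ¬ (p : ℤ) ∣ a j ∧ ¬ (p : ℤ) ∣ a l)
    (hbig : K ≤ D ^ M1) (h : D < radM S ((n + 2) ^ 2 * M1) W (a t)) :
    ∃ j l : Fin (n + 2), t ≠ j ∧ t ≠ l ∧ j ≠ l ∧ ∃ d : ℕ, 1 ≤ d ∧ d ≤ D * W ∧
      ((d ^ ((n + 2) ^ 2 * M1) : ℕ) : ℤ) ∣ a t ∧ IsCoprime (a j) (d : ℤ) ∧
      IsCoprime (a l) (d : ℤ) ∧ K ≤ d ^ ((n + 2) ^ 2 * M1) := by
  classical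
  obtain ⟨d', hsq, hd1, hd2, hd3, hd4⟩ := bad_d S _ W D (a t) hW hD h
  have hprod : ∏ p ∈ d'.primeFactors, p = d' := Nat.prod_primeFactors_of_squarefree hsq
  obtain ⟨j, l, htj, htl, hjl, Q, hQ, hQp, hcop⟩ := pair_sel hn a t d'.primeFactors (by
    intro p hp
    obtain ⟨h1, h2, h3, h4⟩ := hd4 p hp
    exact ⟨h1, h4, hpr p h1 h2⟩)
  have hQpr : ∀ p ∈ Q, p.Prime := fun p hp => (hd4 p (hQ hp)).1
  obtain ⟨d, hd⟩ : ∃ d : ℕ, d = ∏ p ∈ Q, p := ⟨_, rfl⟩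
  have hd0 : 1 ≤ d := by rw [hd]; exact Finset.prod_pos fun p hp => (hQpr p hp).pos
  have hdd : d ∣ d' := by
    rw [hd]
    conv_rhs => rw [← hprod]
    exact Finset.prod_dvd_prod_of_subset _ _ _ hQ
  have hd'0 : 0 < d' := Nat.pos_of_ne_zero hsq.ne_zero
  have hpf : d.primeFactors = Q := by rw [hd]; exact pf_prod Q hQpr
  rw [hprod, ← hd] at hQp
  refine ⟨j, l, htj, htl, hjl, d, hd0, (Nat.le_of_dvd hd'0 hdd).trans hd2, ?_, ?_, ?_, ?_⟩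
  · have h1 : ((d ^ ((n + 2) ^ 2 * M1) : ℕ) : ℤ) ∣ (d' : ℤ) ^ ((n + 2) ^ 2 * M1) := by
      rw [Nat.cast_pow]
      exact pow_dvd_pow_of_dvd (Int.natCast_dvd_natCast.2 hdd) _
    exact h1.trans hd3
  · exact cop_of _ _ (by omega) (by rw [hpf]; exact fun p hp => (hcop p hp).1)
  · exact cop_of _ _ (by omega) (by rw [hpf]; exact fun p hp => (hcop p hp).2)
  · rw [pow_mul]
    exact hbig.trans (Nat.pow_le_pow_left (hd1.trans hQp) _)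

theorem apG (n : ℕ) (hn : 2 ≤ n) (ε : ℝ) (hε : 0 < ε) :
    ∃ lam0 : ℝ, 0 < lam0 ∧ ∀ lam : ℝ, 0 < lam → lam ≤ lam0 → ∀ (S : Finset ℕ) (G : ℕ),
      ∃ C : ℝ, 1 ≤ C ∧ ∀ (N : ℕ) (Y : Fin (n + 2) → ℕ), 1 ≤ N →
      (∀ i, 1 ≤ Y i ∧ (Y i : ℝ) ≤ (N : ℝ) ^ lam) → ∀ T : Finset (Fin (n + 2) → ℤ),
      (∀ a ∈ T, (∀ i, a i ≠ 0 ∧ (a i).natAbs ≤ N ∧ radS S (a i) ≤ Y i) ∧
        ∑ i, a i = 0 ∧ (∃ i, (N : ℤ) ≤ G * |a i|) ∧ (∀ g : ℤ, (∀ i, g ∣ a i) → |g| ≤ G) ∧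
        ∀ p : ℕ, p.Prime → p ∉ S → ∃ j l, j ≠ l ∧ ¬ (p : ℤ) ∣ a j ∧ ¬ (p : ℤ) ∣ a l) →
      (T.card : ℝ) ≤ C * ((∏ i, (Y i : ℝ)) ^ (((n : ℝ) - 1) / n) * (N : ℝ) ^ (ε * lam)) := by
  classical
  have hn1 : 1 ≤ n := by omega
  obtain ⟨P, hP⟩ : ∃ P : ℕ, P = (n + 2) ^ 2 := ⟨_, rfl⟩
  have hP1 : 1 ≤ P := by rw [hP]; exact Nat.one_le_pow _ _ (by omega)
  obtain ⟨κ, hκ0, hκε, hκ1⟩ : ∃ κ : ℝ, 0 < κ ∧ κ ≤ ε / 16 ∧ κ ≤ 1 / 16 :=
    ⟨min (ε / 16) (1 / 16), lt_min (by linarith) (by norm_num), min_le_left _ _, min_le_right _ _⟩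
  obtain ⟨H1, hH1, hH1κ⟩ : ∃ H : ℕ, 1 ≤ H ∧ 4 ≤ κ * H := by
    refine ⟨⌈4 / κ⌉₊, Nat.one_le_ceil_iff.2 (by positivity), ?_⟩
    have h1 := Nat.le_ceil (4 / κ)
    rw [div_le_iff₀ hκ0] at h1
    linarith
  obtain ⟨M1, hM1, hM1κ⟩ : ∃ M1 : ℕ, 1 ≤ M1 ∧ 5 ≤ κ * M1 := by
    refine ⟨⌈5 / κ⌉₊, Nat.one_le_ceil_iff.2 (by positivity), ?_⟩
    have h1 := Nat.le_ceil (5 / κ)
    rw [div_le_iff₀ hκ0] at h1
    linarith
  obtain ⟨MA, hMA⟩ : ∃ MA : ℕ, MA = P * M1 := ⟨_, rfl⟩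
  have hMA1 : 1 ≤ MA := by rw [hMA]; exact Nat.mul_pos hP1 hM1
  obtain ⟨M2, hM2, hPLr⟩ := regPL n MA H1 hn1 hMA1 (κ / 2) (ε / 4) (by positivity) (by positivity)
  obtain ⟨M3, hM3d⟩ : ∃ M3 : ℕ, M3 = MA + M2 := ⟨_, rfl⟩
  have hM3 : 1 ≤ M3 := by omega
  have hM3R : (1 : ℝ) ≤ M3 := by exact_mod_cast hM3
  obtain ⟨κ2, hκ20, hκ2κ, hκ2M⟩ : ∃ κ2 : ℝ, 0 < κ2 ∧ κ2 ≤ κ / 2 ∧ κ2 * M3 ≤ 1 / 2 := by
    refine ⟨min (κ / 2) (1 / (2 * M3)), lt_min (by positivity) (by positivity), min_le_left _ _, ?_⟩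
    calc min (κ / 2) (1 / (2 * (M3 : ℝ))) * M3 ≤ 1 / (2 * (M3 : ℝ)) * M3 :=
          mul_le_mul_of_nonneg_right (min_le_right _ _) (by linarith)
      _ = 1 / 2 := by field_simp
  obtain ⟨H3, hH3, hH3κ⟩ : ∃ H : ℕ, 1 ≤ H ∧ 2 ≤ κ2 * H := by
    refine ⟨⌈2 / κ2⌉₊, Nat.one_le_ceil_iff.2 (by positivity), ?_⟩
    have h1 := Nat.le_ceil (2 / κ2)
    rw [div_le_iff₀ hκ20] at h1
    linarith
  obtain ⟨m0, hm0, hreg2⟩ := reg2 n M3 H3 hn1 hM3 hH3 (ε / 4) (by positivity)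
  have hm0R : (1 : ℝ) ≤ m0 := by exact_mod_cast hm0
  have hMAR : (1 : ℝ) ≤ MA := by exact_mod_cast hMA1
  have hn0 : (0 : ℝ) ≤ n := Nat.cast_nonneg n
  obtain ⟨q, hq⟩ : ∃ q : ℕ, q = m0 * (2 * n + 1) := ⟨_, rfl⟩
  have hqR : (1 : ℝ) ≤ q := by
    have : 1 ≤ q := by rw [hq]; exact Nat.mul_pos hm0 (by omega)
    exact_mod_cast this
  have hqm : m0 ≤ q := by rw [hq]; exact Nat.le_mul_of_pos_right _ (by omega)
  refine ⟨1 / (2 * (q + MA)), by positivity, ?_⟩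
  intro lam hlam hlam0 S G
  have hlam1 : lam * (q + MA) ≤ 1 / 2 := by
    rw [le_div_iff₀ (by positivity)] at hlam0
    linarith
  have hlamqMA := mul_add lam (q : ℝ) (MA : ℝ)
  have hlamq0 : 0 ≤ lam * (q : ℝ) := by positivity
  have hlamMA0 : 0 ≤ lam * (MA : ℝ) := by positivity
  have hlamq : lam * q ≤ 1 / 2 := by linarith
  have hlamMA : lam * MA ≤ 1 / 2 := by linarith
  obtain ⟨m, hmdef⟩ : ∃ m : ℕ, m = ⌈1 / lam⌉₊ := ⟨_, rfl⟩
  have hmlam : 1 ≤ lam * m := by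
    have h1 := Nat.le_ceil (1 / lam)
    rw [← hmdef, div_le_iff₀ hlam] at h1
    linarith
  have hmle : ∀ s : ℕ, lam * s ≤ 1 / 2 → s ≤ m := by
    intro s hs
    have h3 : lam * s ≤ lam * m := by linarith
    have h1 : (s : ℝ) ≤ m := le_of_mul_le_mul_left h3 hlam
    exact_mod_cast h1
  have hmm0 : m0 ≤ m := hqm.trans (hmle q hlamq)
  have hmMA : MA ≤ H1 * m := (hmle MA hlamMA).trans (Nat.le_mul_of_pos_left _ hH1)
  obtain ⟨E, hE, hEl⟩ : ∃ E : ℕ, 1 ≤ E ∧ 2 / ((E : ℝ) + 1) ≤ ε / 4 * lam := by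
    refine ⟨⌈2 / (ε / 4 * lam)⌉₊, Nat.one_le_ceil_iff.2 (by positivity), ?_⟩
    have h1 := Nat.le_ceil (2 / (ε / 4 * lam))
    rw [div_le_iff₀ (by positivity)] at h1
    rw [div_le_iff₀ (by positivity)]
    have h2 := mul_pos (show (0 : ℝ) < ε / 4 by linarith) hlam
    rw [mul_add, mul_one, mul_comm (ε / 4 * lam)]
    linarith
  obtain ⟨C1, hC1, hc1⟩ := reg1 n MA E hn1 hE S (ε / 4 * lam) (by positivity)
  obtain ⟨C2, hC2, hc2⟩ := hPLr m hmMA S (ε / 4 * lam) (by positivity)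
  obtain ⟨C3, hC3, hc3⟩ := hreg2 m hmm0 S (ε / 4 * lam) (by positivity)
  obtain ⟨Na, hNa1, hNa⟩ := ap_large lam hlam ((3 * 2 ^ E) ^ 4)
  obtain ⟨Nb, hNb1, hNb⟩ := ap_large (1 / 2) (by norm_num)
    ((G : ℝ) ^ 2 * ((2 * n + 1) * 3 ^ q) + 1)
  obtain ⟨Nc, hNc1, hNc⟩ := ap_large (lam / 2) (by positivity) (2 ^ M3 + 4)
  obtain ⟨N1, hN1a, hN1b, hN1c⟩ : ∃ N1 : ℕ, Na ≤ N1 ∧ Nb ≤ N1 ∧ Nc ≤ N1 :=
    ⟨max Na (max Nb Nc), le_max_left _ _, (le_max_left _ _).trans (le_max_right _ _),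
      (le_max_right _ _).trans (le_max_right _ _)⟩
  have h3ε : (1 : ℝ) ≤ 3 ^ (ε / 4) := Real.one_le_rpow (by norm_num) (by positivity)
  obtain ⟨F2, hF2⟩ : ∃ F2 : ℝ, F2 = (n + 2 : ℝ) ^ 2 := ⟨_, rfl⟩
  obtain ⟨K1, hK1⟩ : ∃ K1 : ℝ, K1 = C1 * 4 * F2 := ⟨_, rfl⟩
  obtain ⟨K2, hK2⟩ : ∃ K2 : ℝ, K2 = C2 * (2 ^ 4 * 3 ^ (ε / 4)) * (n + 2) := ⟨_, rfl⟩
  obtain ⟨K3, hK3⟩ : ∃ K3 : ℝ, K3 = C3 * (2 ^ 8 * 3 ^ (ε / 4)) * (n + 2) := ⟨_, rfl⟩
  have hF20 : 0 ≤ F2 := by rw [hF2]; positivity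
  have hK10 : 0 ≤ K1 := by rw [hK1]; positivity
  have hK20 : 0 ≤ K2 := by rw [hK2]; positivity
  have hK30 : 0 ≤ K3 := by rw [hK3]; positivity
  have htriv0 : (1 : ℝ) ≤ (2 * (N1 : ℝ) + 1) ^ (n + 2) :=
    one_le_pow₀ (by have : (0 : ℝ) ≤ N1 := Nat.cast_nonneg N1; linarith)
  refine ⟨(2 * (N1 : ℝ) + 1) ^ (n + 2) + (K1 + K2 + K3), by linarith, ?_⟩
  intro N Y hN hY T hT
  have hNR : (1 : ℝ) ≤ (N : ℝ) := by exact_mod_cast hN
  have hN0 : (0 : ℝ) < (N : ℝ) := by linarith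
  obtain ⟨Q, hQ⟩ : ∃ Q : ℝ, Q = (∏ i, (Y i : ℝ)) ^ (((n : ℝ) - 1) / n) := ⟨_, rfl⟩
  have hY1 : ∀ i, 1 ≤ Y i := fun i => (hY i).1
  have hprod1 : (1 : ℝ) ≤ ∏ i, (Y i : ℝ) := by
    have : 1 ≤ ∏ i, Y i := Nat.one_le_iff_ne_zero.2
      (Finset.prod_ne_zero_iff.2 fun i _ => by have := hY1 i; omega)
    exact_mod_cast this
  have hnR : (2 : ℝ) ≤ n := by exact_mod_cast hn
  have hQ1 : 1 ≤ Q := by
    rw [hQ]
    exact Real.one_le_rpow hprod1 (div_nonneg (by linarith) hn0)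
  have hpow1 : (1 : ℝ) ≤ (N : ℝ) ^ (ε * lam) := Real.one_le_rpow hNR (by positivity)
  rw [← hQ]
  rcases le_or_gt N N1 with hNN1 | hNN1
  · have h1 := ap_triv n N N1 hNN1 T (fun a ha i => ((hT a ha).1 i).2.1)
    have h3 : (1 : ℝ) ≤ Q * (N : ℝ) ^ (ε * lam) := one_le_mul_of_one_le_of_one_le hQ1 hpow1
    calc (T.card : ℝ) ≤ (2 * (N1 : ℝ) + 1) ^ (n + 2) + (K1 + K2 + K3) := by linarith
      _ = ((2 * (N1 : ℝ) + 1) ^ (n + 2) + (K1 + K2 + K3)) * 1 := by ring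
      _ ≤ _ := mul_le_mul_of_nonneg_left h3 (by linarith)
  -- the main case
  have hNa' := hNa N (by omega)
  have hNb' := hNb N (by omega)
  have hNc' := hNc N (by omega)
  obtain ⟨y0, hy0⟩ : ∃ y0 : ℝ, y0 = (N : ℝ) ^ lam := ⟨_, rfl⟩
  have hy01 : 1 ≤ y0 := by rw [hy0]; exact Real.one_le_rpow hNR hlam.le
  rw [← hy0] at hNa'
  obtain ⟨X, hX⟩ : ∃ X : ℕ, X = ⌈y0⌉₊ + 1 := ⟨_, rfl⟩
  have hXl : y0 ≤ (X : ℝ) := by
    have := Nat.le_ceil y0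
    rw [hX]; push_cast; linarith
  have hXu : (X : ℝ) ≤ 3 * y0 := by
    have := Nat.ceil_lt_add_one (show 0 ≤ y0 by linarith)
    rw [hX]; push_cast; linarith
  have hX2 : 2 ≤ X := by
    have h1 : 1 ≤ ⌈y0⌉₊ := Nat.one_le_ceil_iff.2 (by linarith)
    omega
  obtain ⟨w1, hw1⟩ : ∃ w1 : ℝ, w1 = (N : ℝ) ^ (κ * lam / 2) := ⟨_, rfl⟩
  have hw11 : 1 ≤ w1 := by rw [hw1]; exact Real.one_le_rpow hNR (by positivity)
  obtain ⟨W1, hW1⟩ : ∃ W : ℕ, W = ⌈w1⌉₊ := ⟨_, rfl⟩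
  obtain ⟨hW1l, hW1u, hW11⟩ := ceil_facts w1 hw11
  rw [← hW1] at hW1l hW1u hW11
  obtain ⟨w2, hw2⟩ : ∃ w2 : ℝ, w2 = (N : ℝ) ^ (κ2 * lam) := ⟨_, rfl⟩
  have hw21 : 1 ≤ w2 := by rw [hw2]; exact Real.one_le_rpow hNR (by positivity)
  obtain ⟨W2, hW2⟩ : ∃ W : ℕ, W = ⌈w2⌉₊ := ⟨_, rfl⟩
  obtain ⟨hW2l, hW2u, hW21⟩ := ceil_facts w2 hw21
  rw [← hW2] at hW2l hW2u hW21
  obtain ⟨d0, hd0⟩ : ∃ d0 : ℝ, d0 = (N : ℝ) ^ (κ * lam) := ⟨_, rfl⟩
  have hd01 : 1 ≤ d0 := by rw [hd0]; exact Real.one_le_rpow hNR (by positivity)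
  obtain ⟨D, hD⟩ : ∃ D : ℕ, D = ⌈d0⌉₊ := ⟨_, rfl⟩
  obtain ⟨hDl, hDu, hD1⟩ := ceil_facts d0 hd01
  rw [← hD] at hDl hDu hD1
  have hW12 : W2 ≤ W1 := by
    rw [hW1, hW2]
    apply Nat.ceil_mono
    rw [hw1, hw2]
    apply Real.rpow_le_rpow_of_exponent_le hNR
    linarith [mul_le_mul_of_nonneg_right hκ2κ hlam.le]
  have hW1X : W1 ≤ X := by
    have h1 : w1 ≤ y0 := by
      rw [hw1, hy0]
      apply Real.rpow_le_rpow_of_exponent_le hNR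
      linarith [mul_le_mul_of_nonneg_right hκ1 hlam.le]
    have h2 : ⌈w1⌉₊ ≤ ⌈y0⌉₊ := Nat.ceil_mono h1
    omega
  have hW2X : W2 ≤ X := hW12.trans hW1X
  have h3E : (1 : ℝ) ≤ 2 ^ E := one_le_pow₀ (by norm_num)
  have h81 : (3 : ℝ) ≤ y0 := by
    have h1 : (3 : ℝ) ≤ (3 * 2 ^ E) ^ 4 := by
      have h2 : (3 : ℝ) ≤ 3 * 2 ^ E := by linarith
      calc (3 : ℝ) ≤ 3 * 2 ^ E := h2
        _ = (3 * 2 ^ E) ^ 1 := (pow_one _).symm
        _ ≤ (3 * 2 ^ E) ^ 4 := pow_le_pow_right₀ (by linarith) (by norm_num)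
    linarith
  have hXyy : (X : ℝ) ≤ (N : ℝ) ^ (lam + lam) := by
    calc (X : ℝ) ≤ 3 * y0 := hXu
      _ ≤ y0 * y0 := mul_le_mul_of_nonneg_right h81 (by linarith)
      _ = (N : ℝ) ^ (lam + lam) := by rw [hy0, Real.rpow_add hN0]
  have hXW1 : X ≤ W1 ^ H1 := by
    have h1 : (X : ℝ) ≤ (W1 : ℝ) ^ H1 := by
      calc (X : ℝ) ≤ (N : ℝ) ^ (lam + lam) := hXyy
        _ ≤ (N : ℝ) ^ (κ * lam / 2 * (H1 : ℝ)) := by
            apply Real.rpow_le_rpow_of_exponent_le hNR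
            linarith [mul_le_mul_of_nonneg_right hH1κ hlam.le]
        _ = w1 ^ H1 := by rw [hw1, Real.rpow_mul hN0.le, Real.rpow_natCast]
        _ ≤ (W1 : ℝ) ^ H1 := pow_le_pow_left₀ (by linarith) hW1l _
    exact_mod_cast h1
  have hNW1 : N ≤ W1 ^ (H1 * m) := by
    have h1 : (N : ℝ) ≤ (W1 : ℝ) ^ (H1 * m) := by
      calc (N : ℝ) = (N : ℝ) ^ (1 : ℝ) := (Real.rpow_one _).symm
        _ ≤ (N : ℝ) ^ (κ * lam / 2 * ((H1 * m : ℕ) : ℝ)) := by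
          apply Real.rpow_le_rpow_of_exponent_le hNR
          push_cast
          have h2 : 4 * 1 ≤ (κ * H1) * (lam * m) :=
            mul_le_mul hH1κ hmlam (by norm_num) (by positivity)
          linarith [h2]
        _ = w1 ^ (H1 * m) := by rw [hw1, Real.rpow_mul hN0.le, Real.rpow_natCast]
        _ ≤ (W1 : ℝ) ^ (H1 * m) := pow_le_pow_left₀ (by linarith) hW1l _
    exact_mod_cast h1
  have hXW2 : X ≤ W2 ^ H3 := by
    have h1 : (X : ℝ) ≤ (W2 : ℝ) ^ H3 := by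
      calc (X : ℝ) ≤ (N : ℝ) ^ (lam + lam) := hXyy
        _ ≤ (N : ℝ) ^ (κ2 * lam * (H3 : ℝ)) := by
            apply Real.rpow_le_rpow_of_exponent_le hNR
            linarith [mul_le_mul_of_nonneg_right hH3κ hlam.le]
        _ = w2 ^ H3 := by rw [hw2, Real.rpow_mul hN0.le, Real.rpow_natCast]
        _ ≤ (W2 : ℝ) ^ H3 := pow_le_pow_left₀ (by linarith) hW2l _
    exact_mod_cast h1
  have hNW2 : N ≤ W2 ^ (H3 * m) := by
    have h1 : (N : ℝ) ≤ (W2 : ℝ) ^ (H3 * m) := by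
      calc (N : ℝ) = (N : ℝ) ^ (1 : ℝ) := (Real.rpow_one _).symm
        _ ≤ (N : ℝ) ^ (κ2 * lam * ((H3 * m : ℕ) : ℝ)) := by
          apply Real.rpow_le_rpow_of_exponent_le hNR
          push_cast
          have h2 : 2 * 1 ≤ (κ2 * H3) * (lam * m) :=
            mul_le_mul hH3κ hmlam (by norm_num) (by positivity)
          linarith [h2]
        _ = w2 ^ (H3 * m) := by rw [hw2, Real.rpow_mul hN0.le, Real.rpow_natCast]
        _ ≤ (W2 : ℝ) ^ (H3 * m) := pow_le_pow_left₀ (by linarith) hW2l _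
    exact_mod_cast h1
  have hbig : (2 ^ E * X) ^ 4 ≤ D ^ M1 := by
    have h1 : ((2 ^ E * (X : ℝ)) ^ 4) ≤ (D : ℝ) ^ M1 := by
      have h2 : y0 ^ 5 ≤ d0 ^ M1 := by
        have e1 : y0 ^ 5 = (N : ℝ) ^ (lam * 5) := by
          rw [hy0, Real.rpow_mul hN0.le]
          exact (Real.rpow_natCast _ 5).symm
        have e2 : d0 ^ M1 = (N : ℝ) ^ (κ * lam * (M1 : ℝ)) := by
          rw [hd0, Real.rpow_mul hN0.le (κ * lam) (M1 : ℝ), Real.rpow_natCast]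
        rw [e1, e2]
        apply Real.rpow_le_rpow_of_exponent_le hNR
        linarith [mul_le_mul_of_nonneg_right hM1κ hlam.le]
      calc ((2 ^ E * (X : ℝ)) ^ 4) ≤ (2 ^ E * (3 * y0)) ^ 4 := by gcongr
        _ = (3 * 2 ^ E) ^ 4 * y0 ^ 4 := by ring
        _ ≤ y0 * y0 ^ 4 := mul_le_mul_of_nonneg_right hNa' (by positivity)
        _ = y0 ^ 5 := by ring
        _ ≤ d0 ^ M1 := h2
        _ ≤ (D : ℝ) ^ M1 := pow_le_pow_left₀ (by linarith) hDl _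
    exact_mod_cast h1
  have hhalf : (N : ℝ) ^ (lam / 2) * (N : ℝ) ^ (lam / 2) = y0 := by
    rw [hy0, ← Real.rpow_add hN0]
    congr 1
    ring
  have hhalf1 : (1 : ℝ) ≤ (N : ℝ) ^ (lam / 2) := Real.one_le_rpow hNR (by positivity)
  have hW2M : W2 ^ M3 ≤ X := by
    have h1 : ((W2 : ℝ)) ^ M3 ≤ (X : ℝ) := by
      have e1 : w2 ^ M3 ≤ (N : ℝ) ^ (lam / 2) := by
        rw [hw2, ← Real.rpow_natCast, ← Real.rpow_mul hN0.le]
        apply Real.rpow_le_rpow_of_exponent_le hNR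
        linarith [mul_le_mul_of_nonneg_right hκ2M hlam.le]
      calc (W2 : ℝ) ^ M3 ≤ (2 * w2) ^ M3 := pow_le_pow_left₀ (Nat.cast_nonneg _) hW2u _
        _ = 2 ^ M3 * w2 ^ M3 := by rw [mul_pow]
        _ ≤ (N : ℝ) ^ (lam / 2) * (N : ℝ) ^ (lam / 2) :=
            mul_le_mul (by linarith) e1 (by positivity) (by positivity)
        _ = y0 := hhalf
        _ ≤ X := hXl
    exact_mod_cast h1
  have hVX : D * W2 ≤ X := by
    have h1 : ((D : ℝ) * W2) ≤ (X : ℝ) := by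
      have e1 : d0 * w2 ≤ (N : ℝ) ^ (lam / 2) := by
        rw [hd0, hw2, ← Real.rpow_add hN0]
        apply Real.rpow_le_rpow_of_exponent_le hNR
        linarith [mul_le_mul_of_nonneg_right hκ1 hlam.le, mul_le_mul_of_nonneg_right hκ2κ hlam.le]
      have e2 : (4 : ℝ) ≤ (N : ℝ) ^ (lam / 2) := by
        have : (0 : ℝ) ≤ 2 ^ M3 := by positivity
        linarith
      calc (D : ℝ) * W2 ≤ (2 * d0) * (2 * w2) := by gcongr
        _ = 4 * (d0 * w2) := by ring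
        _ ≤ (N : ℝ) ^ (lam / 2) * (N : ℝ) ^ (lam / 2) :=
            mul_le_mul e2 e1 (by positivity) (by positivity)
        _ = y0 := hhalf
        _ ≤ X := hXl
    exact_mod_cast h1
  have hXκD : (X : ℝ) ^ (κ / 2) ≤ (D : ℝ) := by
    calc (X : ℝ) ^ (κ / 2) ≤ ((N : ℝ) ^ (lam + lam)) ^ (κ / 2) :=
          Real.rpow_le_rpow (Nat.cast_nonneg _) hXyy (by positivity)
      _ = d0 := by
          rw [hd0, ← Real.rpow_mul hN0.le]
          congr 1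
          ring
      _ ≤ D := hDl
  have hYX : ∀ i, Y i ≤ X := by
    intro i
    have h2 := (hY i).2
    have h1 : (Y i : ℝ) ≤ (X : ℝ) := by
      rw [← hy0] at h2
      linarith
    exact_mod_cast h1
  have hRs : ∀ a ∈ T, ∀ i, a i ∈ Rset S (Y i) N := by
    intro a ha i
    rw [mem_Rset]
    exact (hT a ha).1 i
  obtain ⟨t, -, ht'⟩ := Finset.exists_max_image (Finset.univ : Finset (Fin (n + 2))) Y
    ⟨0, Finset.mem_univ _⟩
  have ht : ∀ i, Y i ≤ Y t := fun i => ht' i (Finset.mem_univ i)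
  -- the size of `L = X ^ m0`
  obtain ⟨Lm, hLm⟩ : ∃ Lm : ℤ, Lm = (X : ℤ) ^ m0 := ⟨_, rfl⟩
  have hLm1 : 1 ≤ Lm := by
    rw [hLm]
    exact one_le_pow₀ (by exact_mod_cast (by omega : 1 ≤ X))
  have hsize : ((G : ℤ)) ^ 2 * ((2 * n + 1) * Lm ^ (2 * n + 1)) < N := by
    have hX3 : (X : ℝ) ^ q ≤ 3 ^ q * (N : ℝ) ^ ((1 : ℝ) / 2) := by
      have e2 : y0 ^ q ≤ (N : ℝ) ^ ((1 : ℝ) / 2) := by
        rw [hy0, ← Real.rpow_natCast, ← Real.rpow_mul hN0.le]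
        apply Real.rpow_le_rpow_of_exponent_le hNR
        linarith
      calc (X : ℝ) ^ q ≤ (3 * y0) ^ q := pow_le_pow_left₀ (Nat.cast_nonneg _) hXu _
        _ = 3 ^ q * y0 ^ q := by rw [mul_pow]
        _ ≤ _ := mul_le_mul_of_nonneg_left e2 (by positivity)
    have hs : (N : ℝ) ^ ((1 : ℝ) / 2) * (N : ℝ) ^ ((1 : ℝ) / 2) = N := by
      rw [← Real.rpow_add hN0]
      norm_num
    have hsp : (0 : ℝ) < (N : ℝ) ^ ((1 : ℝ) / 2) := Real.rpow_pos_of_pos hN0 _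
    have hlt : (G : ℝ) ^ 2 * ((2 * n + 1) * (X : ℝ) ^ q) < N := by
      calc (G : ℝ) ^ 2 * ((2 * n + 1) * (X : ℝ) ^ q)
          ≤ (G : ℝ) ^ 2 * ((2 * n + 1) * (3 ^ q * (N : ℝ) ^ ((1 : ℝ) / 2))) := by gcongr
        _ = ((G : ℝ) ^ 2 * ((2 * n + 1) * 3 ^ q)) * (N : ℝ) ^ ((1 : ℝ) / 2) := by ring
        _ < (N : ℝ) ^ ((1 : ℝ) / 2) * (N : ℝ) ^ ((1 : ℝ) / 2) := by
            apply mul_lt_mul_of_pos_right _ hsp
            linarith
        _ = N := hs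
    rw [hLm, ← pow_mul, ← hq]
    exact_mod_cast hlt
  -- the data of a vector
  have hprodT : ∀ j l, t ≠ j → t ≠ l → j ≠ l →
      (∏ h ∈ ((Finset.univ.erase t).erase j).erase l, (Y h : ℝ)) *
        Real.sqrt ((Y j : ℝ) * Y l) ≤ Q := by
    intro j l h1 h2 h3
    rw [hQ]
    exact prod_triple hn Y hY1 t j l h1 h2 h3 ht
  have hpick : ∀ a ∈ T, ∃ b, t ≠ b ∧ NoSmallRatio (a t) (a t + a b) Lm ∧
      (∏ h ∈ (Finset.univ.erase t).erase b, (Y h : ℝ)) ≤ Q := by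
    intro a ha
    obtain ⟨g1, g2, g3, g4, -⟩ := hT a ha
    obtain ⟨b, b', h1, h2, h3, h4, h5⟩ := pickT hn1 a (fun i => (g1 i).1) g2 (G : ℤ) Lm (N : ℤ)
      (Int.natCast_nonneg G) hLm1 g4 g3 hsize t
    rcases le_total (Y b') (Y b) with h6 | h6
    · refine ⟨b, h1, h4, ?_⟩
      rw [hQ]
      exact prod_pair hn Y hY1 t b b' h1 h2 h3 ht h6
    · refine ⟨b', h2, h5, ?_⟩
      rw [hQ]
      exact prod_pair hn Y hY1 t b' b h2 h1 (Ne.symm h3) ht h6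
  -- splitting
  obtain ⟨TA, hTA⟩ : ∃ TA, TA = T.filter (fun a => D < radM S MA W1 (a t)) := ⟨_, rfl⟩
  obtain ⟨TB, hTB⟩ : ∃ TB, TB = T.filter (fun a => ¬ D < radM S MA W1 (a t)) := ⟨_, rfl⟩
  have hcard : T.card = TA.card + TB.card := by
    rw [hTA, hTB]
    exact (Finset.card_filter_add_card_filter_not (s := T) _).symm
  have hN4 : (N : ℝ) ^ (κ * lam) * (N : ℝ) ^ (κ * lam / 2) *
      (N : ℝ) ^ (2 / ((E : ℝ) + 1) + ε / 4 * lam) ≤ (N : ℝ) ^ (ε * lam) := by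
    rw [← Real.rpow_add hN0, ← Real.rpow_add hN0]
    apply Real.rpow_le_rpow_of_exponent_le hNR
    linarith [mul_le_mul_of_nonneg_right hκε hlam.le, mul_pos hε hlam]
  have hcardA : (TA.card : ℝ) ≤ K1 * (Q * (N : ℝ) ^ (ε * lam)) := by
    have hA : ∀ a ∈ TA, ∃ jl : Fin (n + 2) × Fin (n + 2), t ≠ jl.1 ∧ t ≠ jl.2 ∧ jl.1 ≠ jl.2 ∧
        ∃ d : ℕ, 1 ≤ d ∧ d ≤ D * W1 ∧ ((d ^ MA : ℕ) : ℤ) ∣ a t ∧ IsCoprime (a jl.1) (d : ℤ) ∧
          IsCoprime (a jl.2) (d : ℤ) ∧ (2 ^ E * X) ^ 4 ≤ d ^ MA := by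
      intro a ha
      rw [hTA, Finset.mem_filter] at ha
      rw [hMA, hP] at ha ⊢
      obtain ⟨j, l, h1, h2, h3, h4⟩ := caseI hn1 S M1 W1 D ((2 ^ E * X) ^ 4) a t hW11 hD1
        (hT a ha.1).2.2.2.2 hbig ha.2
      exact ⟨(j, l), h1, h2, h3, h4⟩
    choose! pr hpr1 hpr2 hpr3 hpr4 using hA
    have h1 : (TA.card : ℝ) ≤ (C1 * 4 * (Q * (N : ℝ) ^ (ε * lam))) *
        ((Finset.univ : Finset (Fin (n + 2) × Fin (n + 2))).card : ℝ) := by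
      apply card_le_real pr (fun a _ => Finset.mem_univ _)
      intro jl _
      rcases (TA.filter (fun a => pr a = jl)).eq_empty_or_nonempty with h0 | ⟨a1, ha1⟩
      · rw [h0, Finset.card_empty, Nat.cast_zero]
        positivity
      · rw [Finset.mem_filter] at ha1
        obtain ⟨hA1, e1⟩ := ha1
        have i1 := hpr1 a1 hA1
        have i2 := hpr2 a1 hA1
        have i3 := hpr3 a1 hA1
        rw [e1] at i1 i2 i3
        have h2 := hc1 N Y hN hY1 (D * W1) t jl.1 jl.2 i1 i2 i3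
          (TA.filter (fun a => pr a = jl)) (by
            intro a ha
            rw [Finset.mem_filter] at ha
            obtain ⟨haA, e2⟩ := ha
            have haT : a ∈ T := by
              rw [hTA, Finset.mem_filter] at haA
              exact haA.1
            obtain ⟨d, f1, f2, f3, f4, f5, f6⟩ := hpr4 a haA
            rw [e2] at f4 f5
            refine ⟨hRs a haT, (hT a haT).2.1, d, f1, f2, f3, f4, f5, ?_, ?_⟩
            · exact (Nat.pow_le_pow_left (Nat.mul_le_mul_left _ (hYX _)) 4).trans f6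
            · exact (Nat.pow_le_pow_left (Nat.mul_le_mul_left _ (hYX _)) 4).trans f6)
        have e3 : ((D * W1 : ℕ) : ℝ) ≤ 4 * ((N : ℝ) ^ (κ * lam) * (N : ℝ) ^ (κ * lam / 2)) := by
          push_cast
          calc (D : ℝ) * W1 ≤ (2 * d0) * (2 * w1) := by gcongr
            _ = _ := by rw [hd0, hw1]; ring
        have e4 := hprodT jl.1 jl.2 i1 i2 i3
        have e5 : (0 : ℝ) ≤ (∏ h ∈ ((Finset.univ.erase t).erase jl.1).erase jl.2, (Y h : ℝ)) *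
            Real.sqrt ((Y jl.1 : ℝ) * Y jl.2) := by positivity
        calc ((TA.filter (fun a => pr a = jl)).card : ℝ) ≤ _ := h2
          _ = C1 * ((D * W1 : ℕ) : ℝ) *
              (((∏ h ∈ ((Finset.univ.erase t).erase jl.1).erase jl.2, (Y h : ℝ)) *
                Real.sqrt ((Y jl.1 : ℝ) * Y jl.2)) *
              (N : ℝ) ^ (2 / ((E : ℝ) + 1) + ε / 4 * lam)) := by ring
          _ ≤ C1 * (4 * ((N : ℝ) ^ (κ * lam) * (N : ℝ) ^ (κ * lam / 2))) *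
              (Q * (N : ℝ) ^ (2 / ((E : ℝ) + 1) + ε / 4 * lam)) := by gcongr
          _ = C1 * 4 * (Q * ((N : ℝ) ^ (κ * lam) * (N : ℝ) ^ (κ * lam / 2) *
              (N : ℝ) ^ (2 / ((E : ℝ) + 1) + ε / 4 * lam))) := by ring
          _ ≤ _ := by gcongr
    refine h1.trans (le_of_eq ?_)
    rw [Finset.card_univ, Fintype.card_prod, Fintype.card_fin, hK1, hF2]
    push_cast
    ring
  have hcardB : (TB.card : ℝ) ≤ (K2 + K3) * (Q * (N : ℝ) ^ (ε * lam)) := by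
    have hB : ∀ a ∈ TB, ∃ b, t ≠ b ∧ NoSmallRatio (a t) (a t + a b) Lm ∧
        (∏ h ∈ (Finset.univ.erase t).erase b, (Y h : ℝ)) ≤ Q := by
      intro a ha
      rw [hTB, Finset.mem_filter] at ha
      exact hpick a ha.1
    choose! bf hb1 hb2 hb3 using hB
    have hBT : ∀ a ∈ TB, a ∈ T ∧ radM S MA W1 (a t) ≤ D := by
      intro a ha
      rw [hTB, Finset.mem_filter, not_lt] at ha
      exact ha
    have hX3 : (X : ℝ) ^ (ε / 4) ≤ 3 ^ (ε / 4) * (N : ℝ) ^ (lam * (ε / 4)) := by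
      calc (X : ℝ) ^ (ε / 4) ≤ (3 * y0) ^ (ε / 4) :=
            Real.rpow_le_rpow (Nat.cast_nonneg _) hXu (by positivity)
        _ = _ := by
            rw [Real.mul_rpow (by norm_num) (by linarith), hy0, ← Real.rpow_mul hN0.le]
    have h1 : (TB.card : ℝ) ≤ ((C2 * (2 ^ 4 * 3 ^ (ε / 4)) + C3 * (2 ^ 8 * 3 ^ (ε / 4))) *
        (Q * (N : ℝ) ^ (ε * lam))) * ((Finset.univ : Finset (Fin (n + 2))).card : ℝ) := by
      apply card_le_real bf (fun a _ => Finset.mem_univ _)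
      intro b _
      obtain ⟨U, hU⟩ : ∃ U, U = TB.filter (fun a => bf a = b) := ⟨_, rfl⟩
      rw [← hU]
      rcases U.eq_empty_or_nonempty with h0 | ⟨a1, ha1⟩
      · rw [h0, Finset.card_empty, Nat.cast_zero]
        positivity
      have hUm : ∀ a ∈ U, a ∈ TB ∧ bf a = b := by
        intro a ha
        rw [hU, Finset.mem_filter] at ha
        exact ha
      obtain ⟨g1, g2⟩ := hUm a1 ha1
      have i1 := hb1 a1 g1
      have i3 := hb3 a1 g1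
      rw [g2] at i1 i3
      have hP0 : (0 : ℝ) ≤ ∏ h ∈ (Finset.univ.erase t).erase b, (Y h : ℝ) := by positivity
      obtain ⟨U1, hU1⟩ : ∃ U1, U1 = U.filter (fun a => D * D < radM S M3 W2 (a b)) := ⟨_, rfl⟩
      obtain ⟨U2, hU2⟩ : ∃ U2, U2 = U.filter (fun a => ¬ D * D < radM S M3 W2 (a b)) := ⟨_, rfl⟩
      have hUc : U.card = U1.card + U2.card := by
        rw [hU1, hU2]
        exact (Finset.card_filter_add_card_filter_not (s := U) _).symm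
      have hc1' : (U1.card : ℝ) ≤ C2 * (2 ^ 4 * 3 ^ (ε / 4)) * (Q * (N : ℝ) ^ (ε * lam)) := by
        have h2 := hc2 N X W1 D Y hN hX2 hW1X hD1 hXW1 hNW1 (fun i => ⟨hY1 i, hYX i⟩) (D * W2) hVX
          t b i1 U1 (by
            intro a ha
            rw [hU1, Finset.mem_filter] at ha
            obtain ⟨haU, hbad⟩ := ha
            obtain ⟨haB, -⟩ := hUm a haU
            obtain ⟨haT, hat⟩ := hBT a haB
            have hA0 := (hT a haT).1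
            obtain ⟨d, f1, f2, f3, f4, f5⟩ := bad_pair S MA W1 M3 W2 D (a t) (a b) hMA1 hM3 hW21
              hW12 hD1 (hA0 t).1 (hA0 b).1 hat hbad
            refine ⟨hRs a haT, (hT a haT).2.1, hat, d, f1, f3, ?_, ?_, ?_, ?_⟩
            · exact hXκD.trans (by exact_mod_cast f2)
            · intro p hp
              have h3 := (f5 p hp).2.2.1
              have h4 := (f5 p hp).1.one_lt.le
              calc p ^ M2 ≤ p ^ M3 := Nat.pow_le_pow_right h4 (by omega)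
                _ ≤ W2 ^ M3 := Nat.pow_le_pow_left h3 _
                _ ≤ X := hW2M
            · rw [← hM3d]
              exact f4
            · exact fun p hp => (f5 p hp).2.2.2)
        have e1 : ((D * W2 : ℕ) : ℝ) * (D : ℝ) ^ 2 ≤
            2 ^ 4 * ((N : ℝ) ^ (κ2 * lam) * (N : ℝ) ^ (κ * lam * 3)) := by
          push_cast
          calc (D : ℝ) * W2 * (D : ℝ) ^ 2 ≤ (2 * d0) * (2 * w2) * (2 * d0) ^ 2 := by gcongr
            _ = 2 ^ 4 * (w2 * d0 ^ 3) := by ring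
            _ = _ := by
                rw [hw2, hd0, Real.rpow_mul hN0.le (κ * lam) 3]
                congr 2
                exact (Real.rpow_natCast _ 3).symm
        have e2 : (N : ℝ) ^ (κ2 * lam) * (N : ℝ) ^ (κ * lam * 3) * (N : ℝ) ^ (lam * (ε / 4)) *
            (N : ℝ) ^ (ε / 4 * lam) ≤ (N : ℝ) ^ (ε * lam) := by
          rw [← Real.rpow_add hN0, ← Real.rpow_add hN0, ← Real.rpow_add hN0]
          apply Real.rpow_le_rpow_of_exponent_le hNR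
          linarith [mul_le_mul_of_nonneg_right hκε hlam.le,
            mul_le_mul_of_nonneg_right hκ2κ hlam.le, mul_pos hε hlam]
        calc (U1.card : ℝ) ≤ _ := h2
          _ = C2 * (((D * W2 : ℕ) : ℝ) * (D : ℝ) ^ 2) *
              ((∏ h ∈ (Finset.univ.erase t).erase b, (Y h : ℝ)) *
                ((X : ℝ) ^ (ε / 4) * (N : ℝ) ^ (ε / 4 * lam))) := by ring
          _ ≤ C2 * (2 ^ 4 * ((N : ℝ) ^ (κ2 * lam) * (N : ℝ) ^ (κ * lam * 3))) *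
              (Q * ((3 ^ (ε / 4) * (N : ℝ) ^ (lam * (ε / 4))) * (N : ℝ) ^ (ε / 4 * lam))) := by
              gcongr
          _ = C2 * (2 ^ 4 * 3 ^ (ε / 4)) * (Q * ((N : ℝ) ^ (κ2 * lam) * (N : ℝ) ^ (κ * lam * 3) *
              (N : ℝ) ^ (lam * (ε / 4)) * (N : ℝ) ^ (ε / 4 * lam))) := by ring
          _ ≤ _ := by gcongr
      have hc2' : (U2.card : ℝ) ≤ C3 * (2 ^ 8 * 3 ^ (ε / 4)) * (Q * (N : ℝ) ^ (ε * lam)) := by
        have h2 := hc3 N X W2 (D * D) Y hN hX2 hW2X (Nat.mul_pos hD1 hD1) hXW2 hNW2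
          (fun i => ⟨hY1 i, hYX i⟩) t b i1 U2 (by
            intro a ha
            rw [hU2, Finset.mem_filter, not_lt] at ha
            obtain ⟨haU, hgood⟩ := ha
            obtain ⟨haB, hab⟩ := hUm a haU
            obtain ⟨haT, hat⟩ := hBT a haB
            refine ⟨hRs a haT, (hT a haT).2.1, ?_, hgood, ?_⟩
            · calc radM S M3 W2 (a t) ≤ radM S MA W1 (a t) :=
                    radM_mono S (by omega) hW12 (a t)
                _ ≤ D := hat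
                _ ≤ D * D := Nat.le_mul_of_pos_left _ hD1
            · have := hb2 a haB
              rw [hab, hLm] at this
              exact this)
        have e1 : ((D * D : ℕ) : ℝ) ^ 4 ≤ 2 ^ 8 * (N : ℝ) ^ (κ * lam * 8) := by
          push_cast
          calc ((D : ℝ) * D) ^ 4 ≤ ((2 * d0) * (2 * d0)) ^ 4 := by gcongr
            _ = 2 ^ 8 * d0 ^ 8 := by ring
            _ = _ := by
                rw [hd0, Real.rpow_mul hN0.le (κ * lam) 8]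
                congr 1
                exact (Real.rpow_natCast _ 8).symm
        have e2 : (N : ℝ) ^ (κ * lam * 8) * (N : ℝ) ^ (lam * (ε / 4)) *
            (N : ℝ) ^ (ε / 4 * lam) ≤ (N : ℝ) ^ (ε * lam) := by
          rw [← Real.rpow_add hN0, ← Real.rpow_add hN0]
          apply Real.rpow_le_rpow_of_exponent_le hNR
          linarith [mul_le_mul_of_nonneg_right hκε hlam.le, mul_pos hε hlam]
        calc (U2.card : ℝ) ≤ _ := h2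
          _ ≤ C3 * (2 ^ 8 * (N : ℝ) ^ (κ * lam * 8)) *
              (Q * ((3 ^ (ε / 4) * (N : ℝ) ^ (lam * (ε / 4))) * (N : ℝ) ^ (ε / 4 * lam))) := by
              gcongr
          _ = C3 * (2 ^ 8 * 3 ^ (ε / 4)) * (Q * ((N : ℝ) ^ (κ * lam * 8) *
              (N : ℝ) ^ (lam * (ε / 4)) * (N : ℝ) ^ (ε / 4 * lam))) := by ring
          _ ≤ _ := by gcongr
      rw [hUc]
      push_cast
      linarith
    refine h1.trans (le_of_eq ?_)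
    rw [Finset.card_univ, Fintype.card_fin, hK2, hK3]
    push_cast
    ring
  have hQN : 0 ≤ Q * (N : ℝ) ^ (ε * lam) := by positivity
  have h5 : (0 : ℝ) ≤ (2 * (N1 : ℝ) + 1) ^ (n + 2) * (Q * (N : ℝ) ^ (ε * lam)) :=
    mul_nonneg (by linarith) hQN
  rw [hcard]
  push_cast
  linarith

end Pool.Agent.Helper87.RP
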