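import Pool.Agent.Helper24.TV.ClassR

/-!
RP-2 (MP_464c42_nt). The number of integers of small radical and small `radM` in one residue class modulo `d ^ (M + M2)`, without
the condition of coprimality to `d`: no `p ^ M`, `p ∣ d`, divides the numbers.

Proof. `M2` from `classR M H hM κ ε2`. Let `g = gcd (r, d ^ M)`. For `a ∈ F` one has `d ^ M ∣ a - r`, so `g ∣ a`, `a = g * a'`; and no
prime `p ∣ d` divides `a'`: otherwise `p * g ∣ a`, and `p * g ∣ d ^ M` (as `d ^ M = g * h` and `p ∤ h` would give `p ^ M ∣ g ∣ a`), so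
`p * g ∣ gcd (r, d ^ M) = g`. Moreover `d ^ (M + M2) ∣ a - r = g * (a' - r')` and `g ∣ d ^ M` give `d ^ M2 ∣ a' - r'`. The `a'` are in
`Rset S X N` and `radM S M W a' ≤ radM S M W a ≤ D`. So `classR` applies to the image `{a'}`; there is no loss.
-/

set_option autoImplicit false

open Pool.Agent.Helper87.Camp Pool.Agent.Helper10 Pool.Agent.Helper91.CPX

namespace Pool.Agent.Helper87.RP

open Pool.Agent.Helper24.TU Pool.Agent.Helper24.TV

theorem radS_le_of_dvd (S : Finset ℕ) {a b : ℤ} (hab : a ∣ b) (hb : b ≠ 0) : radS S a ≤ radS S b := by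
  unfold radS
  refine Finset.prod_le_prod_of_subset_of_one_le' ?_ ?_
  · intro p hp
    rw [Finset.mem_filter] at hp ⊢
    exact ⟨Nat.primeFactors_mono (Int.natAbs_dvd_natAbs.2 hab) (Int.natAbs_ne_zero.2 hb) hp.1, hp.2⟩
  · intro p hp _
    exact (Nat.prime_of_mem_primeFactors (Finset.mem_filter.1 hp).1).one_lt.le

theorem radM_le_of_dvd (S : Finset ℕ) (M W : ℕ) {a b : ℤ} (hab : a ∣ b) (hb : b ≠ 0) :
    radM S M W a ≤ radM S M W b := by
  unfold radM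
  refine Finset.prod_le_prod_of_subset_of_one_le' ?_ ?_
  · intro p hp
    rw [Finset.mem_filter] at hp ⊢
    exact ⟨Nat.primeFactors_mono (Int.natAbs_dvd_natAbs.2 hab) (Int.natAbs_ne_zero.2 hb) hp.1,
      hp.2.1, hp.2.2.1, hp.2.2.2.trans (Int.natAbs_dvd_natAbs.2 hab)⟩
  · intro p hp _
    exact (Nat.prime_of_mem_primeFactors (Finset.mem_filter.1 hp).1).one_lt.le

theorem classG (M H : ℕ) (hM : 1 ≤ M) (κ ε2 : ℝ) (hκ : 0 < κ) (hε2 : 0 < ε2) :
    ∃ M2 : ℕ, 1 ≤ M2 ∧ ∀ m : ℕ, M ≤ H * m → ∀ S : Finset ℕ, ∀ δ : ℝ, 0 < δ → ∃ C : ℝ, 1 ≤ C ∧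
      ∀ N X W D : ℕ, 1 ≤ N → 2 ≤ X → W ≤ X → 1 ≤ D → X ≤ W ^ H → N ≤ W ^ (H * m) →
      ∀ d : ℕ, Squarefree d → d ≤ X → (X : ℝ) ^ κ ≤ (d : ℝ) → (∀ p ∈ d.primeFactors, p ^ M2 ≤ X) →
      ∀ r : ℤ, ∀ F : Finset ℤ,
      (∀ a ∈ F, a ∈ Rset S X N ∧ radM S M W a ≤ D ∧ (∀ p ∈ d.primeFactors, ¬ (p : ℤ) ^ M ∣ a) ∧
        (d : ℤ) ^ (M + M2) ∣ a - r) →
      (F.card : ℝ) ≤ C * (D : ℝ) ^ 2 * ((X : ℝ) ^ ε2 * (N : ℝ) ^ δ) := by
  classical
  obtain ⟨M2, hM2, hcl⟩ := classR M H hM κ ε2 hκ hε2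
  refine ⟨M2, hM2, fun m hm S δ hδ => ?_⟩
  obtain ⟨C, hC, hcl⟩ := hcl m hm S δ hδ
  refine ⟨C, hC, ?_⟩
  intro N X W D hN hX hWX hD hXW hW d hsq hdX hXd hp r F hF
  have hd0 : d ≠ 0 := hsq.ne_zero
  obtain ⟨g, hg⟩ : ∃ g : ℤ, g = (Int.gcd r ((d : ℤ) ^ M) : ℤ) := ⟨_, rfl⟩
  have hgr : g ∣ r := by rw [hg]; exact Int.gcd_dvd_left ..
  have hgd : g ∣ (d : ℤ) ^ M := by rw [hg]; exact Int.gcd_dvd_right ..
  have hdM : (d : ℤ) ^ M ≠ 0 := pow_ne_zero _ (by exact_mod_cast hd0)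
  have hg0 : g ≠ 0 := by
    rintro rfl
    exact hdM (zero_dvd_iff.1 hgd)
  obtain ⟨h, hh⟩ := hgd
  obtain ⟨r', hr'⟩ := hgr
  have hga : ∀ a ∈ F, g ∣ a := by
    intro a ha
    have h1 : (d : ℤ) ^ M ∣ a - r := by
      refine dvd_trans ?_ (hF a ha).2.2.2
      rw [pow_add]
      exact dvd_mul_right _ _
    have h2 : g ∣ a - r := by
      refine dvd_trans ?_ h1
      rw [hh]
      exact dvd_mul_right _ _
    have h3 : a = (a - r) + r := by ring
    rw [h3]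
    exact dvd_add h2 (by rw [hr']; exact dvd_mul_right _ _)
  have hinj : Set.InjOn (fun a : ℤ => a / g) (F : Set ℤ) := by
    intro a ha b hb hab
    obtain ⟨a', ha'⟩ := hga a ha
    obtain ⟨b', hb'⟩ := hga b hb
    have h1 : a / g = a' := by rw [ha', Int.mul_ediv_cancel_left _ hg0]
    have h2 : b / g = b' := by rw [hb', Int.mul_ediv_cancel_left _ hg0]
    have h3 : a / g = b / g := hab
    rw [h1, h2] at h3
    rw [ha', hb', h3]
  rw [← Finset.card_image_of_injOn hinj]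
  refine hcl N X W D hN hX hWX hD hXW hW d hsq hdX hXd hp r' _ ?_
  intro w hw
  obtain ⟨a, ha, rfl⟩ := Finset.mem_image.1 hw
  obtain ⟨h1, h2, h3, h4⟩ := hF a ha
  obtain ⟨a', ha'⟩ := hga a ha
  have haw : a / g = a' := by rw [ha', Int.mul_ediv_cancel_left _ hg0]
  change a / g ∈ Rset S X N ∧ radM S M W (a / g) ≤ D ∧
    (∀ p ∈ d.primeFactors, ¬ (p : ℤ) ∣ a / g) ∧ (d : ℤ) ^ M2 ∣ a / g - r'
  rw [haw]
  have h1' := mem_Rset.1 h1
  have hda : a' ∣ a := by rw [ha']; exact dvd_mul_left _ _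
  have ha'0 : a' ≠ 0 := by
    rintro rfl
    exact h1'.1 (by rw [ha', mul_zero])
  refine ⟨mem_Rset.2 ⟨ha'0, ?_, ?_⟩, ?_, ?_, ?_⟩
  · exact (Nat.le_of_dvd (Int.natAbs_pos.2 h1'.1) (Int.natAbs_dvd_natAbs.2 hda)).trans h1'.2.1
  · exact (radS_le_of_dvd S hda h1'.1).trans h1'.2.2
  · exact (radM_le_of_dvd S M W hda h1'.1).trans h2
  · intro p hpd hpa
    have hpp : p.Prime := Nat.prime_of_mem_primeFactors hpd
    have hpZ : Prime (p : ℤ) := Nat.prime_iff_prime_int.1 hpp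
    have hpdd : (p : ℤ) ∣ (d : ℤ) := by exact_mod_cast Nat.dvd_of_mem_primeFactors hpd
    have hpg : (g * p) ∣ a := by
      rw [ha']
      exact mul_dvd_mul_left _ hpa
    -- `p ∣ h`
    have hph : (p : ℤ) ∣ h := by
      by_contra hcon
      have hcop : IsCoprime ((p : ℤ) ^ M) h := IsCoprime.pow_left ((Prime.coprime_iff_not_dvd hpZ).2 hcon)
      have h5 : (p : ℤ) ^ M ∣ g * h := by
        rw [← hh]
        exact pow_dvd_pow_of_dvd hpdd M
      have h6 : (p : ℤ) ^ M ∣ g := hcop.dvd_of_dvd_mul_right h5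
      exact h3 p hpd (h6.trans (hga a ha))
    have h7 : (g * p) ∣ (d : ℤ) ^ M := by
      rw [hh]
      exact mul_dvd_mul_left _ hph
    have h8 : (g * p) ∣ r := by
      have h9 : (d : ℤ) ^ M ∣ a - r := by
        refine dvd_trans ?_ h4
        rw [pow_add]
        exact dvd_mul_right _ _
      have h10 : (g * p) ∣ a - (a - r) := dvd_sub hpg (h7.trans h9)
      have h11 : a - (a - r) = r := by ring
      rwa [h11] at h10
    have h12 : (g * p) ∣ g := by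
      conv_rhs => rw [hg]
      exact Int.dvd_coe_gcd h8 h7
    have h13 : (p : ℤ) ∣ 1 := by
      have h14 : g * p ∣ g * 1 := by rwa [mul_one]
      exact (mul_dvd_mul_iff_left hg0).1 h14
    exact hpZ.not_isUnit (isUnit_of_dvd_one h13)
  · have h5 : (d : ℤ) ^ M2 * (d : ℤ) ^ M ∣ g * (a' - r') := by
      have h6 : g * (a' - r') = a - r := by
        rw [ha', hr']
        ring
      rw [h6, mul_comm, ← pow_add]
      exact h4
    have h7 : g * ((d : ℤ) ^ M2 * h) ∣ g * (a' - r') := by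
      refine dvd_trans ?_ h5
      rw [hh]
      exact ⟨1, by ring⟩
    exact (dvd_mul_right _ _).trans ((mul_dvd_mul_iff_left hg0).1 h7)

end Pool.Agent.Helper87.RP
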