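import Pool.Agent.Helper87.RP.Defs

/-!
RP-9 (MP_464c42_nt). An arbitrary constant `A`.

Proof. Given `ε`, let `lam0` be that of `Bd1` for `ε / 2`, and `η > 0` with `(e + ε / 2) (1 + η) ≤ e + ε`, `lam0' = lam0 / (1 + η)`. For `lam ≤ lam0'` let
`lam' = (1 + η) lam ≤ lam0`. If `H(x) ≥ H0` then `A H(x) ^ lam ≤ H(x) ^ lam'` (`H0 ^ (η lam) ≥ A`), so `x` lies in `pts S L 1 lam' B`; the `x` with `H(x) < H0` are at most
`(2 H0 + 1) ^ (n + 1)` (finite box). `C' = |C| + (2 H0 + 1) ^ (n + 1)`, `B ≥ 1`.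
-/

set_option autoImplicit false

namespace Pool.Agent.Helper87.RP

open Pool.Agent.Helper24.TU

theorem const_up (n r : ℕ) (e : ℝ) (he : 0 ≤ e) (h : Bd1 n r e) (ε : ℝ) (hε : 0 < ε) :
    ∃ lam0 : ℝ, 0 < lam0 ∧ ∀ lam : ℝ, 0 < lam → lam ≤ lam0 →
      ∀ (S : Finset ℕ) (L : Matrix (Fin r) (Fin (n + 1)) ℤ), GenPos L → ∀ A : ℝ,
      ∃ C : ℝ, ∀ B : ℕ, 1 ≤ B → (pts S L A lam B).Finite ∧
        ((pts S L A lam B).ncard : ℝ) ≤ C * (B : ℝ) ^ ((e + ε) * lam) := by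
  obtain ⟨lam1, hlam1, h1⟩ := h (ε / 2) (by positivity)
  set η : ℝ := (ε / 2) / (e + ε / 2) with hη
  have hη0 : 0 < η := by positivity
  have hη1 : (e + ε / 2) * (1 + η) = e + ε := by
    rw [hη]
    have : e + ε / 2 ≠ 0 := by positivity
    field_simp
    ring
  refine ⟨lam1 / (1 + η), by positivity, fun lam hlam hle S L hL A => ?_⟩
  have hlam' : (1 + η) * lam ≤ lam1 := by
    rw [le_div_iff₀ (by positivity)] at hle
    linarith
  obtain ⟨C, hC⟩ := h1 ((1 + η) * lam) (by positivity) hlam' S L hL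
  -- large heights
  obtain ⟨H0, hH0⟩ : ∃ H0 : ℕ, ∀ H : ℕ, H0 ≤ H → A * (H : ℝ) ^ lam ≤ 1 * (H : ℝ) ^ ((1 + η) * lam) := by
    have ht := (tendsto_rpow_atTop (y := η * lam) (by positivity)).comp
      (tendsto_natCast_atTop_atTop (R := ℝ))
    have h2 := (ht.eventually_ge_atTop A).and (Filter.eventually_ge_atTop 1)
    obtain ⟨H0, hH0⟩ := Filter.eventually_atTop.1 h2
    refine ⟨H0, fun H hH => ?_⟩
    obtain ⟨h3, h4⟩ := hH0 H hH
    have hHpos : (0 : ℝ) < H := by exact_mod_cast h4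
    rw [one_mul, show (1 + η) * lam = η * lam + lam by ring, Real.rpow_add hHpos]
    exact mul_le_mul_of_nonneg_right h3 (by positivity)
  set box : Finset (Fin (n + 1) → ℤ) :=
    Fintype.piFinset fun _ => Finset.Icc (-(H0 : ℤ)) (H0 : ℤ) with hbox
  refine ⟨|C| + box.card, fun B hB => ?_⟩
  obtain ⟨hfin, hcard⟩ := hC B hB
  have hsub : pts S L A lam B ⊆ pts S L 1 ((1 + η) * lam) B ∪ (box : Set (Fin (n + 1) → ℤ)) := by
    rintro x ⟨hx1, hx2, hx3, hx4⟩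
    rcases le_or_gt H0 (ht x) with h3 | h3
    · left
      exact ⟨hx1, hx2, hx3.trans (hH0 _ h3), hx4⟩
    · right
      rw [Finset.mem_coe, hbox, Fintype.mem_piFinset]
      intro j
      have h4 := le_ht x j
      rw [Finset.mem_Icc]
      omega
  have hfin2 : (pts S L 1 ((1 + η) * lam) B ∪ (box : Set (Fin (n + 1) → ℤ))).Finite :=
    hfin.union box.finite_toSet
  refine ⟨hfin2.subset hsub, ?_⟩
  have h3 : (pts S L A lam B).ncard ≤ (pts S L 1 ((1 + η) * lam) B).ncard + box.card := by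
    refine (Set.ncard_le_ncard hsub hfin2).trans ((Set.ncard_union_le _ _).trans ?_)
    rw [Set.ncard_coe_finset]
  have hB1 : (1 : ℝ) ≤ B := by exact_mod_cast hB
  have h4 : (1 : ℝ) ≤ (B : ℝ) ^ ((e + ε) * lam) := Real.one_le_rpow hB1 (by positivity)
  have h5 : (e + ε / 2) * ((1 + η) * lam) = (e + ε) * lam := by
    rw [← mul_assoc, hη1]
  rw [h5] at hcard
  have h6 : C * (B : ℝ) ^ ((e + ε) * lam) ≤ |C| * (B : ℝ) ^ ((e + ε) * lam) :=
    mul_le_mul_of_nonneg_right (le_abs_self C) (by positivity)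
  have h7 : (box.card : ℝ) ≤ box.card * (B : ℝ) ^ ((e + ε) * lam) :=
    le_mul_of_one_le_right (by positivity) h4
  calc ((pts S L A lam B).ncard : ℝ)
      ≤ ((pts S L 1 ((1 + η) * lam) B).ncard : ℝ) + box.card := by exact_mod_cast h3
    _ ≤ |C| * (B : ℝ) ^ ((e + ε) * lam) + box.card * (B : ℝ) ^ ((e + ε) * lam) := by linarith
    _ = (|C| + box.card) * (B : ℝ) ^ ((e + ε) * lam) := by ring

end Pool.Agent.Helper87.RP
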