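import Pool.Agent.Helper24.TU.Defs

/-!
Project RP (MP_464c42_nt), definitions: points at which `r` linear forms in general position have radicals of small product.
-/

set_option autoImplicit false

namespace Pool.Agent.Helper87.RP

open Pool.Agent.Helper24.TU

/-- The value of the `i`-th linear form at `x`. -/
def lin {r n : ℕ} (L : Matrix (Fin r) (Fin (n + 1)) ℤ) (i : Fin r) (x : Fin (n + 1) → ℤ) : ℤ :=
  ∑ j, L i j * x j

/-- The linear forms are in general position: any `n + 1` of them are linearly independent. -/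
def GenPos {r n : ℕ} (L : Matrix (Fin r) (Fin (n + 1)) ℤ) : Prop :=
  ∀ e : Fin (n + 1) → Fin r, Function.Injective e → (L.submatrix e id).det ≠ 0

/-- The primitive integer vectors `x` of height at most `B` at which no form vanishes and the product of the radicals of the
values of the forms outside `S` is at most `A * H(x) ^ lam`. -/
def pts {r n : ℕ} (S : Finset ℕ) (L : Matrix (Fin r) (Fin (n + 1)) ℤ) (A lam : ℝ) (B : ℕ) :
    Set (Fin (n + 1) → ℤ) :=
  {x | (∀ d : ℤ, (∀ j, d ∣ x j) → IsUnit d) ∧ (∀ i, lin L i x ≠ 0) ∧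
    ∏ i, (radS S (lin L i x) : ℝ) ≤ A * (ht x : ℝ) ^ lam ∧ ht x ≤ B}

/-- The bound with the exponent `(e + ε) * lam`, for `r` forms in `n + 1` variables and the constant `A = 1`. -/
def Bd1 (n r : ℕ) (e : ℝ) : Prop :=
  ∀ ε : ℝ, 0 < ε → ∃ lam0 : ℝ, 0 < lam0 ∧ ∀ lam : ℝ, 0 < lam → lam ≤ lam0 →
    ∀ (S : Finset ℕ) (L : Matrix (Fin r) (Fin (n + 1)) ℤ), GenPos L →
    ∃ C : ℝ, ∀ B : ℕ, 1 ≤ B → (pts S L 1 lam B).Finite ∧
      ((pts S L 1 lam B).ncard : ℝ) ≤ C * (B : ℝ) ^ ((e + ε) * lam)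

end Pool.Agent.Helper87.RP
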