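import Pool.Agent.Helper87.RP.Defs
import Pool.Agent.Helper24.TU.Low

/-!
RP-10 (MP_464c42_nt). The lower bound for four lines in the plane.

Proof. `Lstd` and `trunc_lower` (`Helper24/TU/Low.lean`) with the same `m`: four radicals at most `H(x) ^ (1 / m)` have product at most `H(x) ^ (4 / m)`;
`pts` is finite (it lies in a box), so `ncard` is monotone (`Set.ncard_le_ncard`). `GenPos` of `Lstd` from its minors, or by enumeration of the injective
`e : Fin 3 → Fin 4` (`decide` after `unfold`, or `fin_cases`).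
-/

set_option autoImplicit false

namespace Pool.Agent.Helper87.RP

open Pool.Agent.Helper24.TU Pool.Agent.Helper91.CPX

theorem genPos_Lstd : GenPos (r := 4) (n := 2) Lstd := by
  intro e he
  have h01 : e 0 ≠ e 1 := fun h => absurd (he h) (by decide)
  have h02 : e 0 ≠ e 2 := fun h => absurd (he h) (by decide)
  have h12 : e 1 ≠ e 2 := fun h => absurd (he h) (by decide)
  rw [Matrix.det_fin_three]
  simp only [Matrix.submatrix_apply, id_eq]
  have key : ∀ a b c : Fin 4, a ≠ b → a ≠ c → b ≠ c →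
      (Lstd a 0 * Lstd b 1 * Lstd c 2 - Lstd a 0 * Lstd b 2 * Lstd c 1 - Lstd a 1 * Lstd b 0 * Lstd c 2 +
        Lstd a 1 * Lstd b 2 * Lstd c 0 + Lstd a 2 * Lstd b 0 * Lstd c 1 - Lstd a 2 * Lstd b 1 * Lstd c 0 : ℤ) ≠ 0 := by
    unfold Lstd
    decide
  exact key _ _ _ h01 h02 h12

theorem finite_pts {r n : ℕ} (S : Finset ℕ) (L : Matrix (Fin r) (Fin (n + 1)) ℤ) (A lam : ℝ) (B : ℕ) :
    (pts S L A lam B).Finite := by
  apply (Set.finite_Icc (fun _ : Fin (n + 1) => (-(B : ℤ))) (fun _ => (B : ℤ))).subset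
  intro x hx
  have hx2 : ∀ j, (x j).natAbs ≤ B := fun j => (le_ht x j).trans hx.2.2.2
  refine ⟨fun j => ?_, fun j => ?_⟩
  · have := hx2 j
    change -(B : ℤ) ≤ x j
    omega
  · have := hx2 j
    change x j ≤ (B : ℤ)
    omega

theorem low4 : ∃ L : Matrix (Fin 4) (Fin (2 + 1)) ℤ, GenPos L ∧
    ∀ m : ℕ, 1 ≤ m → ∃ c : ℝ, 0 < c ∧ ∀ B : ℕ, 1 ≤ B →
      c * (B : ℝ) ^ ((1 / 2 : ℝ) * (4 / (m : ℝ))) ≤ ((pts ∅ L 1 (4 / (m : ℝ)) B).ncard : ℝ) := by
  refine ⟨Lstd, genPos_Lstd, fun m hm => ?_⟩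
  obtain ⟨c, hc, h⟩ := trunc_lower m hm
  refine ⟨c, hc, fun B hB => ?_⟩
  have e1 : (1 / 2 : ℝ) * (4 / (m : ℝ)) = 2 * (1 / (m : ℝ)) := by ring
  rw [e1]
  refine (h B hB).trans ?_
  have hsub : {x : Fin (2 + 1) → ℤ | (∀ d : ℤ, (∀ j, d ∣ x j) → IsUnit d) ∧
      (∀ i, Pool.Agent.Helper87.Camp.form Lstd i x ≠ 0 ∧
        (radS ∅ (Pool.Agent.Helper87.Camp.form Lstd i x) : ℝ) ≤ (ht x : ℝ) ^ (1 / (m : ℝ))) ∧
      ht x ≤ B} ⊆ pts ∅ (r := 4) Lstd 1 (4 / (m : ℝ)) B := by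
    rintro x ⟨h1, h2, h3⟩
    refine ⟨h1, fun i => (h2 i).1, ?_, h3⟩
    have h4 : ∏ i : Fin 4, (radS ∅ (lin (r := 4) (n := 2) Lstd i x) : ℝ) ≤
        ∏ _i : Fin 4, (ht x : ℝ) ^ (1 / (m : ℝ)) :=
      Finset.prod_le_prod (fun i _ => Nat.cast_nonneg _) fun i _ => (h2 i).2
    refine h4.trans (le_of_eq ?_)
    rw [Finset.prod_const, Finset.card_univ, Fintype.card_fin, ← Real.rpow_natCast,
      ← Real.rpow_mul (Nat.cast_nonneg _), one_mul]
    congr 1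
    push_cast
    ring
  exact_mod_cast Set.ncard_le_ncard hsub (finite_pts _ _ _ _ _)

end Pool.Agent.Helper87.RP
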