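import Pool.Agent.Helper87.RP.Fix
import Pool.Agent.Helper87.RP.Defs
import Pool.Agent.Helper13.RP.MinSel
import Pool.Agent.Helper66.RP.DyOf

/-!
RP-7 (MP_464c42_nt). `r ≥ n + 2` linear forms in general position, `n ≥ 2`.

Proof. `dy_of` (`Helper66/RP/DyOf.lean`) with the bound `fixE` and the selection of the `n + 2` smallest radicals, `min_sel`;
the sum over the dyadic ranges is `sum_dy` (`Helper13/RP/Sum.lean`).
-/

set_option autoImplicit false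

open Pool.Agent.Helper87.Camp Pool.Agent.Helper10 Pool.Agent.Helper91.CPX

namespace Pool.Agent.Helper87.RP

open Pool.Agent.Helper24.TU Pool.Agent.Helper24.TV

theorem min_sel {r k : ℕ} (hk : k ≤ r) (R : Fin r → ℕ) (hR : ∀ i, 1 ≤ R i) :
    ∃ e : Fin k → Fin r, Function.Injective e ∧ (∏ i, R (e i)) ^ r ≤ (∏ i, R i) ^ k :=
  Pool.Agent.Helper13.RP.min_sel hk R hR

theorem sel_ge2 {n r : ℕ} (hn : 1 ≤ n) (hr : n + 2 ≤ r) (R : Fin r → ℕ) (hR : ∀ i, 1 ≤ R i) :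
    ∃ e : Fin (n + 2) → Fin r, Function.Injective e ∧
      ∀ Y : Fin (n + 2) → ℕ, (∀ i, 1 ≤ Y i ∧ Y i ≤ 2 * R (e i)) →
        (∏ i, (Y i : ℝ)) ^ (((n : ℝ) - 1) / n) ≤
          2 ^ (n + 2) * ((∏ i, R i : ℕ) : ℝ) ^ (((n : ℝ) + 1 - 2 / n) / r) := by
  obtain ⟨e, he, hle⟩ := min_sel hr R hR
  refine ⟨e, he, fun Y hY => ?_⟩
  have hn0 : (0 : ℝ) < n := by exact_mod_cast hn
  have hn1 : (1 : ℝ) ≤ n := by exact_mod_cast hn
  have hr0 : (0 : ℝ) < r := by exact_mod_cast (by omega : 0 < r)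
  have hs0 : (0 : ℝ) ≤ ((n : ℝ) - 1) / n := div_nonneg (by linarith) hn0.le
  have hs1 : ((n : ℝ) - 1) / n ≤ 1 := by
    rw [div_le_one hn0]
    linarith
  obtain ⟨P, hP⟩ : ∃ P : ℝ, P = ((∏ i, R i : ℕ) : ℝ) := ⟨_, rfl⟩
  have hP0 : 0 ≤ P := by
    rw [hP]
    exact Nat.cast_nonneg _
  obtain ⟨E, hE⟩ : ∃ E : ℝ, E = ((∏ i, R (e i) : ℕ) : ℝ) := ⟨_, rfl⟩
  have hE0 : 0 ≤ E := by
    rw [hE]
    exact Nat.cast_nonneg _
  have h1 : ∏ i, (Y i : ℝ) ≤ 2 ^ (n + 2) * E := by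
    calc ∏ i, (Y i : ℝ) ≤ ∏ i, (2 * (R (e i) : ℝ)) :=
          Finset.prod_le_prod (fun i _ => Nat.cast_nonneg _) fun i _ => by
            exact_mod_cast (hY i).2
      _ = 2 ^ (n + 2) * E := by
          rw [Finset.prod_mul_distrib, Finset.prod_const, Finset.card_univ, Fintype.card_fin, hE]
          push_cast
          rfl
  have h2 : E ≤ P ^ (((n + 2 : ℕ) : ℝ) / r) := by
    have k1 : E ^ r ≤ P ^ (n + 2) := by
      rw [hE, hP]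
      exact_mod_cast hle
    have k2 : (P ^ (((n + 2 : ℕ) : ℝ) / r)) ^ r = P ^ (n + 2) := by
      rw [← Real.rpow_mul_natCast hP0, div_mul_cancel₀ _ hr0.ne', Real.rpow_natCast]
    rw [← k2] at k1
    exact le_of_pow_le_pow_left₀ (by omega) (Real.rpow_nonneg hP0 _) k1
  have h3 : (1 : ℝ) ≤ 2 ^ (n + 2) := one_le_pow₀ (by norm_num)
  calc (∏ i, (Y i : ℝ)) ^ (((n : ℝ) - 1) / n) ≤ (2 ^ (n + 2) * E) ^ (((n : ℝ) - 1) / n) :=
        Real.rpow_le_rpow (Finset.prod_nonneg fun i _ => Nat.cast_nonneg _) h1 hs0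
    _ = (2 ^ (n + 2) : ℝ) ^ (((n : ℝ) - 1) / n) * E ^ (((n : ℝ) - 1) / n) :=
        Real.mul_rpow (by positivity) hE0
    _ ≤ 2 ^ (n + 2) * (P ^ (((n + 2 : ℕ) : ℝ) / r)) ^ (((n : ℝ) - 1) / n) := by
        refine mul_le_mul ?_ (Real.rpow_le_rpow hE0 h2 hs0) (Real.rpow_nonneg hE0 _) (by positivity)
        calc (2 ^ (n + 2) : ℝ) ^ (((n : ℝ) - 1) / n) ≤ (2 ^ (n + 2) : ℝ) ^ (1 : ℝ) :=
              Real.rpow_le_rpow_of_exponent_le h3 hs1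
          _ = 2 ^ (n + 2) := Real.rpow_one _
    _ = 2 ^ (n + 2) * P ^ (((n : ℝ) + 1 - 2 / n) / r) := by
        rw [← Real.rpow_mul hP0]
        congr 2
        push_cast
        field_simp
        ring
    _ = _ := by rw [hP]

theorem main_ge2 (n r : ℕ) (hn : 2 ≤ n) (hr : n + 2 ≤ r) :
    Bd1 n r (((n : ℝ) + 1 - 2 / n) / r) := by
  have hn0 : (0 : ℝ) < n := by exact_mod_cast (by omega : 0 < n)
  have hn2 : (2 : ℝ) ≤ n := by exact_mod_cast hn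
  have he : 0 ≤ ((n : ℝ) + 1 - 2 / n) / r := by
    have h1 : 2 / (n : ℝ) ≤ 1 := by
      rw [div_le_one hn0]
      exact hn2
    exact div_nonneg (by linarith) (Nat.cast_nonneg _)
  refine Pool.Agent.Helper13.RP.sum_dy he (Pool.Agent.Helper66.RP.dy_of (c := 2 ^ (n + 2))
    (QB := fun Y Q => (∏ i, (Y i : ℝ)) ^ (((n : ℝ) - 1) / n) ≤ Q) he
    (one_le_pow₀ (by norm_num)) ?_ fun R hR => sel_ge2 (by omega) hr R hR)
  intro ε hε
  obtain ⟨lam0, hlam0, h⟩ := fixE n hn ε hε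
  refine ⟨lam0, hlam0, fun lam hlam hle S L hL => ?_⟩
  obtain ⟨Cmin, hC1, h2⟩ := h lam hlam hle S L hL
  refine ⟨Cmin, hC1, fun K0 hK0 => ?_⟩
  obtain ⟨C, hC, h3⟩ := h2 K0 hK0
  refine ⟨C, hC, fun H Y hH hY T hT Q hQ hQB => ?_⟩
  refine (h3 H Y hH hY T hT).trans ?_
  refine mul_le_mul_of_nonneg_left ?_ (by linarith)
  exact mul_le_mul_of_nonneg_right hQB (Real.rpow_nonneg (Nat.cast_nonneg _) _)

end Pool.Agent.Helper87.RP
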