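import Pool.Agent.Helper66.RP.DyOf
import Pool.Agent.Helper87.RP.SelQ
import Pool.Agent.Helper91.RP.FixQ

/-!
RP, Q3 (MP_464c42_nt). `r ≥ n + 2` linear forms in general position, `n ≥ 2`: the exponent `max (n / r) ((n - 1) / (r - 2))`.
-/

set_option autoImplicit false

open Pool.Agent.Helper87.Camp Pool.Agent.Helper10 Pool.Agent.Helper91.CPX

namespace Pool.Agent.Helper87.RP

open Pool.Agent.Helper24.TU Pool.Agent.Helper66.RP Pool.Agent.Helper13.RP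

/-- `Q` bounds the product of all the `Y i` but the largest, two of them under a square root. -/
def QBQ {n : ℕ} (Y : Fin (n + 2) → ℕ) (Q : ℝ) : Prop :=
  ∀ t j l : Fin (n + 2), t ≠ j → t ≠ l → j ≠ l → (∀ i, Y i ≤ Y t) →
    ((∏ i, Y i : ℕ) : ℝ) / ((Y t : ℝ) * Real.sqrt ((Y j : ℝ) * Y l)) ≤ Q

theorem selB_q {n r : ℕ} (hn : 1 ≤ n) (hr : n + 2 ≤ r) :
    SelB n r (max ((n : ℝ) / r) (((n : ℝ) - 1) / ((r : ℝ) - 2))) (2 ^ r) QBQ := by
  intro R hR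
  obtain ⟨e, he, h⟩ := sel_qY hn hr R hR
  exact ⟨e, he, fun Y hY t j l htj htl hjl hmax => h Y hY t j l htj htl hjl hmax⟩

theorem main_of (n r : ℕ) (hn : 1 ≤ n) (hr : n + 2 ≤ r) (hfix : FixB n QBQ) :
    Bd1 n r (max ((n : ℝ) / r) (((n : ℝ) - 1) / ((r : ℝ) - 2))) := by
  have he : 0 ≤ max ((n : ℝ) / r) (((n : ℝ) - 1) / ((r : ℝ) - 2)) :=
    le_max_of_le_left (by positivity)
  exact sum_dy he (dy_of he (one_le_pow₀ (by norm_num)) hfix (selB_q hn hr))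

theorem main_q (n r : ℕ) (hn : 1 ≤ n) (hr : n + 2 ≤ r) :
    Bd1 n r (max ((n : ℝ) / r) (((n : ℝ) - 1) / ((r : ℝ) - 2))) :=
  main_of n r hn hr (Pool.Agent.Helper91.RP.fixQ n hn)

end Pool.Agent.Helper87.RP
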