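import Pool.Agent.Helper87.RP.Defs
import Pool.Agent.Helper24.TV.Main

/-!
RP-8 (MP_464c42_nt). The line, from `main_r` (`Helper24/TV/Main.lean`).

Proof. `main_one`: `x : Fin 2 → ℤ` corresponds to `(x 0, x 1)`; a vector whose common divisors are units is a coprime pair; `lin L i x = L i 0 * x 0 + L i 1 * x 1`;
`ht x = max |x 0| |x 1|`; `GenPos L` with `e = ![i, j]` is `u i * v j - u j * v i ≠ 0`; `radS S (∏ lin) ≤ ∏ radS S (lin)` (the primes of a product), so `pts S L 1 lam B` maps
injectively into the set of `main_r`.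
-/

set_option autoImplicit false

namespace Pool.Agent.Helper87.RP

open Pool.Agent.Helper24.TU Pool.Agent.Helper24.TV

theorem one_radS_mul (S : Finset ℕ) (a b : ℤ) (hab : a * b ≠ 0) :
    radS S (a * b) ≤ radS S a * radS S b := by
  classical
  have ha : a.natAbs ≠ 0 := Int.natAbs_ne_zero.2 (left_ne_zero_of_mul hab)
  have hb : b.natAbs ≠ 0 := Int.natAbs_ne_zero.2 (right_ne_zero_of_mul hab)
  unfold radS
  rw [Int.natAbs_mul, Nat.primeFactors_mul ha hb, Finset.filter_union]
  have h := Finset.prod_union_inter (s₁ := a.natAbs.primeFactors.filter (fun p => p ∉ S))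
    (s₂ := b.natAbs.primeFactors.filter (fun p => p ∉ S)) (f := fun p : ℕ => p)
  rw [← h]
  refine Nat.le_mul_of_pos_right _ (Finset.prod_pos fun p hp => ?_)
  exact (Nat.prime_of_mem_primeFactors
    (Finset.mem_filter.1 (Finset.mem_inter.1 hp).1).1).pos

theorem one_radS_prod {ι : Type} (S : Finset ℕ) (T : Finset ι) (f : ι → ℤ) (h : ∏ i ∈ T, f i ≠ 0) :
    radS S (∏ i ∈ T, f i) ≤ ∏ i ∈ T, radS S (f i) := by
  classical
  induction T using Finset.induction_on with
  | empty => simp [radS]
  | insert i T hi ih =>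
    rw [Finset.prod_insert hi] at h ⊢
    rw [Finset.prod_insert hi]
    exact (one_radS_mul S _ _ h).trans (Nat.mul_le_mul_left _ (ih (right_ne_zero_of_mul h)))

theorem main_one (r : ℕ) (hr : 3 ≤ r) : Bd1 1 r (1 / (r : ℝ)) := by
  classical
  intro ε hε
  obtain ⟨lam0, h0, h⟩ := main_r r hr ε hε
  refine ⟨lam0, h0, fun lam hlam hle S L hL => ?_⟩
  have hD : ∀ i j, i ≠ j → dd (fun i => L i 0) (fun i => L i 1) i j ≠ 0 := by
    intro i j hij hz
    have hinj : Function.Injective (![i, j] : Fin (1 + 1) → Fin r) := by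
      intro a b hab
      fin_cases a <;> fin_cases b
      · rfl
      · exact absurd hab hij
      · exact absurd hab hij.symm
      · rfl
    refine hL _ hinj ?_
    rw [Matrix.det_fin_two]
    simp only [Matrix.submatrix_apply, id_eq, Matrix.cons_val_zero, Matrix.cons_val_one]
    unfold dd at hz
    simp only at hz
    linarith
  obtain ⟨C, hC⟩ := h lam hlam hle S _ _ hD
  refine ⟨C, fun B hB => ?_⟩
  obtain ⟨h1, h2⟩ := hC B hB
  have hinj : Function.Injective (fun x : Fin (1 + 1) → ℤ => (x 0, x 1)) := by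
    intro x y hxy
    simp only [Prod.mk.injEq] at hxy
    funext j
    fin_cases j
    · exact hxy.1
    · exact hxy.2
  have hmaps : Set.MapsTo (fun x : Fin (1 + 1) → ℤ => (x 0, x 1)) (pts S L 1 lam B)
      {x : ℤ × ℤ | IsCoprime x.1 x.2 ∧ ∏ i, lv (fun i => L i 0) (fun i => L i 1) i x ≠ 0 ∧
        (radS S (∏ i, lv (fun i => L i 0) (fun i => L i 1) i x) : ℝ) ≤ (hgt x : ℝ) ^ lam ∧
        hgt x ≤ B} := by
    rintro x ⟨hx1, hx2, hx3, hx4⟩
    have hlin : ∀ i, lv (fun i => L i 0) (fun i => L i 1) i (x 0, x 1) = lin L i x := by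
      intro i
      unfold lv lin
      rw [Fin.sum_univ_two]
    have hht : hgt (x 0, x 1) = ht x := by
      apply le_antisymm
      · exact max_le (le_ht x 0) (le_ht x 1)
      · refine ht_le x _ fun j => ?_
        fin_cases j
        · exact le_max_left _ _
        · exact le_max_right _ _
    have hprod : ∏ i, lin L i x ≠ 0 := Finset.prod_ne_zero_iff.2 fun i _ => hx2 i
    refine ⟨?_, ?_, ?_, ?_⟩
    · show IsCoprime (x 0) (x 1)
      rw [Int.isCoprime_iff_gcd_eq_one]
      have h3 : IsUnit ((Int.gcd (x 0) (x 1) : ℕ) : ℤ) := by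
        refine hx1 _ fun j => ?_
        fin_cases j
        · exact Int.gcd_dvd_left _ _
        · exact Int.gcd_dvd_right _ _
      rw [Int.isUnit_iff_natAbs_eq] at h3
      simpa using h3
    · simp only [hlin]
      exact hprod
    · simp only [hlin, hht]
      rw [one_mul] at hx3
      refine le_trans ?_ hx3
      exact_mod_cast one_radS_prod S Finset.univ (fun i => lin L i x) hprod
    · rw [hht]
      exact hx4
  refine ⟨Set.Finite.of_injOn hmaps hinj.injOn h1, le_trans ?_ h2⟩
  exact_mod_cast Set.ncard_le_ncard_of_injOn _ hmaps hinj.injOn h1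

end Pool.Agent.Helper87.RP
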